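import Mathlib
import Pool.Agent.W192.HK.Parts0

/-!
# Project HK0, part THETA: the theta relation for ray class characters (`n = 0`)
-/

set_option autoImplicit false

open Complex Filter Topology Set Pool.Agent.W192.CM Pool.Agent.W192.HK

namespace Pool.Agent.W644.HK

variable {R : Subring ℂ}

theorem prin_of_mul [IsDedekindDomain R] {A B : Ideal R} {δ α : R} (h : A * B = sp δ)
    (hδ : δ ≠ 0) (hB : B = sp α) : ∃ β : R, A = sp β := by
  subst hB
  have h1 : δ ∈ sp α := by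
    have : sp δ ≤ sp α := by
      rw [← h]
      exact Ideal.mul_le_right
    exact this (Ideal.mem_span_singleton_self δ)
  obtain ⟨β, hβ⟩ := Ideal.mem_span_singleton'.1 h1
  refine ⟨β, ?_⟩
  have hα : α ≠ 0 := by
    rintro rfl
    apply hδ
    rw [← hβ, mul_zero]
  have h2 : sp δ = sp β * sp α := by
    rw [← hβ, Ideal.span_singleton_mul_span_singleton]
  rw [h2] at h
  have h3 : sp α ≠ 0 := by
    rw [Ne, Ideal.zero_eq_bot, Ideal.span_singleton_eq_bot]
    exact hα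
  exact mul_right_cancel₀ h3 h

open Classical in
theorem comp_cs [IsDedekindDomain R] {s : Finset (Ideal R)} {hh : Ideal R} (hs : Cs s)
    (hh0 : hh ≠ ⊥) (g : Ideal R → Ideal R) (hg : ∀ b ∈ s, hh = b * g b) :
    Cs (s.image g) := by
  refine ⟨?_, ?_⟩
  · intro b' hb'
    obtain ⟨b, hb, rfl⟩ := Finset.mem_image.1 hb'
    intro h
    apply hh0
    rw [hg b hb, h, Ideal.mul_bot]
  · intro I hI
    have hIh : I * hh ≠ ⊥ := by
      rw [← Ideal.zero_eq_bot] at *
      exact mul_ne_zero hI hh0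
    obtain ⟨δ, hδm, hδ⟩ := Submodule.exists_mem_ne_zero_of_ne_bot hIh
    have hle : sp δ ≤ I * hh := by
      rw [Ideal.span_singleton_le_iff_mem]
      exact hδm
    obtain ⟨J, hJ⟩ := Ideal.dvd_iff_le.2 hle
    have hJ0 : J ≠ ⊥ := by
      rintro rfl
      rw [Ideal.mul_bot, Ideal.span_singleton_eq_bot] at hJ
      exact hδ hJ
    have key : ∀ b ∈ s, (I * g b) * (J * b) = sp δ := by
      intro b hb
      rw [hJ, hg b hb]
      ring
    obtain ⟨b, ⟨hb, α, hα⟩, hu⟩ := hs.uni J hJ0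
    refine ⟨g b, ⟨Finset.mem_image_of_mem g hb, prin_of_mul (key b hb) hδ hα⟩, ?_⟩
    rintro g' ⟨hg', β, hβ⟩
    obtain ⟨b', hb', rfl⟩ := Finset.mem_image.1 hg'
    have h2 : (J * b') * (I * g b') = sp δ := by rw [mul_comm]; exact key b' hb'
    obtain ⟨α', hα'⟩ := prin_of_mul h2 hδ hβ
    rw [hu b' ⟨hb', α', hα'⟩]

/-- summability -/
theorem summ_exp (h6 : H_CNT) {ω : ℂ} (hR : QR R ω)
    (h1 : ∀ I : Ideal R, I ≠ ⊥ → 1 ≤ nm I) (F : Ideal R → ℂ) (h0 : F ⊥ = 0)
    (hF : ∀ I, ‖F I‖ ≤ 1) (c : ℝ) (hc : 0 < c) :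
    Summable (fun I : Ideal R => F I * (Real.exp (-(c * nm I)) : ℂ)) := by
  have hs := ((h6 R ω hR).2.1 2 (by norm_num)).mul_left (2 / c ^ 2)
  refine Summable.of_norm_bounded hs fun I => ?_
  by_cases hI : I = ⊥
  · subst hI
    rw [h0, zero_mul, norm_zero]
    exact mul_nonneg (by positivity) (Real.rpow_nonneg (Nat.cast_nonneg _) _)
  · have hn := h1 I hI
    have hn0 : 0 < nm I := by linarith
    rw [norm_mul, Complex.norm_real, Real.norm_eq_abs, abs_of_pos (Real.exp_pos _)]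
    have h2 : ‖F I‖ * Real.exp (-(c * nm I)) ≤ 1 * Real.exp (-(c * nm I)) :=
      mul_le_mul_of_nonneg_right (hF I) (Real.exp_pos _).le
    refine h2.trans ?_
    rw [one_mul, Real.exp_neg, Real.rpow_neg hn0.le, Real.rpow_two]
    have h3 := Real.quadratic_le_exp_of_nonneg (x := c * nm I) (by positivity)
    have h4 : (c * nm I) ^ 2 / 2 ≤ Real.exp (c * nm I) := by
      have : 0 ≤ c * nm I := by positivity
      linarith
    rw [inv_eq_one_div, div_le_iff₀ (Real.exp_pos _)]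
    calc (1 : ℝ) = 2 / c ^ 2 * (nm I ^ 2)⁻¹ * ((c * nm I) ^ 2 / 2) := by field_simp
      _ ≤ _ := by
        refine mul_le_mul_of_nonneg_left h4 (by positivity)

/-- the term of an element -/
theorem quo_term {b : Ideal R} {ψ : Ideal R → ℂ}
    (hm : ∀ I J : Ideal R, ψ (I * J) = ψ I * ψ J)
    (hn : ∀ I J : Ideal R, nm (I * J) = nm I * nm J)
    (hsp : ∀ α : R, nm (sp α) = Complex.normSq (α : ℂ))
    (hb : ψ b ≠ 0) (hb1 : 0 < nm b) {α : R} (hq : quo b α * b = sp α) (c : ℝ) :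
    ψ (quo b α) * (Real.exp (-(c * nm (quo b α))) : ℂ) =
      (ψ b)⁻¹ * (ψ (sp α) * (Real.exp (-(c / nm b * Complex.normSq (α : ℂ))) : ℂ)) := by
  have h1 : ψ (sp α) = ψ (quo b α) * ψ b := by rw [← hq, hm]
  have h2 : Complex.normSq (α : ℂ) = nm (quo b α) * nm b := by rw [← hsp, ← hq, hn]
  rw [h1, h2]
  have h3 : c / nm b * (nm (quo b α) * nm b) = c * nm (quo b α) := by
    field_simp
  rw [h3]
  field_simp

open Classical in
theorem per_b [IsDedekindDomain R] (h5 : H_POIS) {ω : ℂ} (hR : QR R ω) {q b g : Ideal R} {μ : R}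
    {T : Finset R} {θ : R → ℂ} {G : ℂ}
    (hn : ∀ I J : Ideal R, nm (I * J) = nm I * nm J)
    (hsp : ∀ α : R, nm (sp α) = Complex.normSq (α : ℂ))
    (hq0 : 0 < nm q) (hb0 : 0 < nm b) (hg0 : 0 < nm g) (hqne : q ≠ ⊥) (hbne : b ≠ ⊥)
    (hgne : g ≠ ⊥) (hcop : IsCoprime q b) (hprn : q * b * g = sp μ) (hT : Rp q b T)
    (hper : ∀ α β : R, α - β ∈ q → θ α = θ β)
    (hgauss : ∀ γ ∈ g, ∑ r ∈ T, θ r * ez ω ((r : ℂ) * (γ : ℂ) / (μ : ℂ)) =
      (starRingEnd ℂ) (θ γ) * G)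
    (t : ℝ) (ht : 0 < t) (c1 c2 : ℝ)
    (hc1 : c1 = Real.pi / (ω.im * Real.sqrt (nm q) * t) / nm b)
    (hc2 : c2 = Real.pi * t / (ω.im * Real.sqrt (nm q)) / nm g)
    (hsum : Summable (fun β : R => if β ∈ b then θ β *
      (Real.exp (-(c1 * Complex.normSq (β : ℂ))) : ℂ) else 0)) :
    ∑' β : R, (if β ∈ b then θ β * (Real.exp (-(c1 * Complex.normSq (β : ℂ))) : ℂ) else 0) =
      ((t : ℂ) / (Real.sqrt (nm q) : ℂ)) * G * ∑' γ : R, (if γ ∈ g then (starRingEnd ℂ) (θ γ) *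
        (Real.exp (-(c2 * Complex.normSq (γ : ℂ))) : ℂ) else 0) := by
  have hv := hR.im
  have hsq : 0 < Real.sqrt (nm q) := Real.sqrt_pos.2 hq0
  have hsq2 : Real.sqrt (nm q) * Real.sqrt (nm q) = nm q := Real.mul_self_sqrt hq0.le
  have hμ : Complex.normSq (μ : ℂ) = nm q * nm b * nm g := by rw [← hsp, ← hprn, hn, hn]
  set E1 : ℂ → ℂ := fun z => (Real.exp (-(c1 * Complex.normSq z)) : ℂ) with hE1
  set E2 : ℂ → ℂ := fun z => (Real.exp (-(c2 * Complex.normSq z)) : ℂ) with hE2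
  set tP : ℝ := Real.sqrt (nm q) * nm g / t with htP
  have htP0 : 0 < tP := by positivity
  have hinf : q ⊓ b = q * b := (Ideal.mul_eq_inf_of_isCoprime hcop).symm
  have hqb : q * b ≠ ⊥ := by
    rw [← Ideal.zero_eq_bot] at *
    exact mul_ne_zero hqne hbne
  -- Poisson for each r
  have hP : ∀ r : R, Summable (fun γ : R => if γ ∈ g then
        ez ω ((r : ℂ) * (γ : ℂ) / (μ : ℂ)) * E2 (γ : ℂ) else 0) ∧
      ∑' α : R, (if α ∈ q * b then E1 ((r : ℂ) + (α : ℂ)) else 0) =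
        ((t : ℂ) / (Real.sqrt (nm q) : ℂ)) * ∑' γ : R, (if γ ∈ g then
          ez ω ((r : ℂ) * (γ : ℂ) / (μ : ℂ)) * E2 (γ : ℂ) else 0) := by
    intro r
    obtain ⟨s1, _, e⟩ := h5 R ω hR 0 (q * b) g μ r tP hqb hgne hprn htP0
    have ha : ∀ γ : R, (if γ ∈ g then ((starRingEnd ℂ) (γ : ℂ)) ^ 0 *
        ez ω ((r : ℂ) * (γ : ℂ) / (μ : ℂ)) *
        (Real.exp (-(Real.pi * Complex.normSq (γ : ℂ) / (ω.im * tP))) : ℂ) else 0) =
        (if γ ∈ g then ez ω ((r : ℂ) * (γ : ℂ) / (μ : ℂ)) * E2 (γ : ℂ) else 0) := by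
      intro γ
      split_ifs
      · rw [pow_zero, one_mul, hE2]
        congr 4
        rw [hc2, htP]
        field_simp
      · rfl
    have hb : ∀ α : R, (if α ∈ q * b then (((r : ℂ) + (α : ℂ)) / (μ : ℂ)) ^ 0 *
      (Real.exp (-(Real.pi * tP * Complex.normSq ((r : ℂ) + (α : ℂ)) /
        (ω.im * Complex.normSq (μ : ℂ)))) : ℂ) else 0) =
        (if α ∈ q * b then E1 ((r : ℂ) + (α : ℂ)) else 0) := by
      intro α
      split_ifs
      · rw [pow_zero, one_mul, hE1]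
        congr 3
        rw [hc1, htP, hμ, ← hsq2]
        have : Real.sqrt (Real.sqrt (nm q) * Real.sqrt (nm q)) = Real.sqrt (nm q) := by rw [hsq2]
        rw [this]
        field_simp
      · rfl
    simp only [ha] at s1 e
    simp only [hb] at e
    refine ⟨s1, ?_⟩
    rw [e, ← mul_assoc]
    have h1 : ((t : ℂ) / (Real.sqrt (nm q) : ℂ)) * ((tP : ℂ) ^ (0 + 1) / (nm g : ℂ)) = 1 := by
      rw [zero_add, pow_one, htP]
      have h2 : (t : ℂ) ≠ 0 := by exact_mod_cast ht.ne'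
      have h3 : (Real.sqrt (nm q) : ℂ) ≠ 0 := by exact_mod_cast hsq.ne'
      have h4 : (nm g : ℂ) ≠ 0 := by exact_mod_cast hg0.ne'
      push_cast
      field_simp
    rw [h1, one_mul]
  -- partition of the left side
  have hA : ∑' β : R, (if β ∈ b then θ β * E1 (β : ℂ) else 0) =
      ∑ r ∈ T, θ r * ∑' α : R, (if α ∈ q * b then E1 ((r : ℂ) + (α : ℂ)) else 0) := by
    have h1 : ∀ β : R, (if β ∈ b then θ β * E1 (β : ℂ) else 0) =
        ∑ r ∈ T, (if β - r ∈ q then (if β ∈ b then θ β * E1 (β : ℂ) else 0) else 0) := by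
      intro β
      obtain ⟨r, ⟨hr, hrq⟩, hu⟩ := hT.uni β
      rw [Finset.sum_eq_single r]
      · rw [if_pos hrq]
      · intro r' hr' hne
        rw [if_neg]
        intro h
        exact hne (hu r' ⟨hr', h⟩)
      · intro h
        exact absurd hr h
    rw [tsum_congr h1, Summable.tsum_finsetSum]
    · refine Finset.sum_congr rfl fun r hr => ?_
      rw [← tsum_mul_left, ← (Equiv.addLeft r).tsum_eq]
      refine tsum_congr fun α => ?_
      rw [Equiv.coe_addLeft, add_sub_cancel_left, ← hinf, Ideal.mem_inf,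
        Ideal.add_mem_iff_right b (hT.mem r hr)]
      by_cases h2 : α ∈ q
      · by_cases h3 : α ∈ b
        · rw [if_pos h2, if_pos h3, if_pos ⟨h2, h3⟩, hper (r + α) r (by rwa [add_sub_cancel_left])]
          push_cast
          rfl
        · rw [if_pos h2, if_neg h3, if_neg (fun h => h3 h.2), mul_zero]
      · rw [if_neg h2, if_neg (fun h => h2 h.1), mul_zero]
    · intro r _
      have := hsum.indicator {β : R | β - r ∈ q}
      refine this.congr fun β => ?_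
      by_cases h2 : β - r ∈ q
      · rw [if_pos h2, Set.indicator_of_mem (by exact h2)]
      · rw [if_neg h2, Set.indicator_of_notMem (by exact h2)]
  have hB : ∑' γ : R, (if γ ∈ g then (starRingEnd ℂ) (θ γ) * E2 (γ : ℂ) else 0) * G =
      ∑ r ∈ T, θ r * ∑' γ : R, (if γ ∈ g then
          ez ω ((r : ℂ) * (γ : ℂ) / (μ : ℂ)) * E2 (γ : ℂ) else 0) := by
    simp only [← tsum_mul_left]
    rw [← Summable.tsum_finsetSum fun r _ => ((hP r).1.mul_left _)]
    refine tsum_congr fun γ => ?_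
    by_cases h2 : γ ∈ g
    · simp only [if_pos h2]
      rw [mul_right_comm, ← hgauss γ h2, Finset.sum_mul]
      refine Finset.sum_congr rfl fun r _ => ?_
      ring
    · simp only [if_neg h2, mul_zero, zero_mul, Finset.sum_const_zero]
  change ∑' β : R, (if β ∈ b then θ β * E1 (β : ℂ) else 0) = _ * ∑' γ : R,
    (if γ ∈ g then (starRingEnd ℂ) (θ γ) * E2 (γ : ℂ) else 0)
  rw [hA, mul_assoc, mul_comm G, ← tsum_mul_right, hB, Finset.mul_sum]
  refine Finset.sum_congr rfl fun r _ => ?_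
  rw [(hP r).2]
  ring

set_option maxHeartbeats 1000000 in
open Classical in
theorem n_theta (h1 : H_BASIC) (h2 : H_FP) (h3 : H_DEC) (h4 : H_GAUSS) (h5 : H_POIS)
    (h6 : H_CNT) : N_THETA := by
  intro R ω hR q ψ hψ hq s hh μ T hS t ht
  have := hR.ded
  obtain ⟨-, -, b3, b4, b5, -, -, -, -⟩ := h1 R ω hR
  obtain ⟨f1, -, -, -, f5⟩ := h2 R ω hR 0 q ψ hψ hq
  have hv := hR.im
  have hpos : ∀ I : Ideal R, I ≠ ⊥ → 0 < nm I := fun I hI => by linarith [b3 I hI]
  have hQ := hpos q hψ.ne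
  have hsq : 0 < Real.sqrt (nm q) := Real.sqrt_pos.2 hQ
  have hfp : ∀ α : R, fp 0 ψ α = ψ (sp α) := by
    intro α
    unfold fp
    rw [pow_zero, div_one]
  -- values of `ψ`
  have hψ0 : ψ ⊥ = 0 := (hψ.zero ⊥).2 (Or.inl rfl)
  have hψ1 : ∀ I : Ideal R, ψ I ≠ 0 → ‖ψ I‖ = 1 := by
    intro I hI
    have h := hI
    rw [Ne, hψ.zero, not_or, not_not] at h
    have := f1 I h.1 h.2
    rw [pow_zero] at this
    nlinarith [norm_nonneg (ψ I)]
  have hψle : ∀ I : Ideal R, ‖ψ I‖ ≤ 1 := by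
    intro I
    by_cases h : ψ I = 0
    · rw [h, norm_zero]; exact zero_le_one
    · exact (hψ1 I h).le
  have hconj : ∀ I : Ideal R, ψ I ≠ 0 → ((starRingEnd ℂ) (ψ I))⁻¹ = ψ I := by
    intro I hI
    have h : ψ I * (starRingEnd ℂ) (ψ I) = 1 := by
      rw [Complex.mul_conj, Complex.normSq_eq_norm_sq, hψ1 I hI]
      norm_num
    exact (eq_inv_of_mul_eq_one_left h).symm
  -- the complementary representatives
  have hex : ∀ b : Ideal R, ∃ g : Ideal R, b ∈ s → hh = b * g := by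
    intro b
    by_cases hb : b ∈ s
    · obtain ⟨g, hg⟩ := hS.dvd b hb
      exact ⟨g, fun _ => hg⟩
    · exact ⟨⊤, fun h => absurd h hb⟩
  choose g hg using hex
  have hCs' : Cs (s.image g) := comp_cs hS.cs hS.ne g hg
  have hbne : ∀ b ∈ s, b ≠ ⊥ := hS.cs.ne
  have hgne : ∀ b ∈ s, g b ≠ ⊥ := fun b hb => hCs'.ne (g b) (Finset.mem_image_of_mem g hb)
  have hψb : ∀ b ∈ s, ψ b ≠ 0 := by
    intro b hb h
    rcases (hψ.zero b).1 h with h | h
    · exact hbne b hb h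
    · exact h (hS.cp b hb)
  have hψg : ∀ b ∈ s, ψ (g b) ≠ 0 := by
    intro b hb h
    rcases (hψ.zero (g b)).1 h with h | h
    · exact hgne b hb h
    · apply h
      have := hS.cop
      rw [hg b hb] at this
      exact this.of_mul_left_right
  have hinj : Set.InjOn g (s : Set (Ideal R)) := by
    intro b hb b' hb' he
    have e1 := hg b hb
    rw [hg b' hb', ← he] at e1
    have h0 : g b ≠ 0 := by rw [Ideal.zero_eq_bot]; exact hgne b hb
    exact (mul_right_cancel₀ h0 e1).symm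
  -- exponents
  set k1 : ℝ := Real.pi / (ω.im * Real.sqrt (nm q) * t) with hk1
  set k2 : ℝ := Real.pi * t / (ω.im * Real.sqrt (nm q)) with hk2
  have hk1p : 0 < k1 := by positivity
  have hk2p : 0 < k2 := by positivity
  have hL : ∀ I : Ideal R, ψ I *
      (Real.exp (-(Real.pi * nm I / (ω.im * Real.sqrt (nm q))) / t) : ℂ) =
      ψ I * (Real.exp (-(k1 * nm I)) : ℂ) := by
    intro I
    congr 3
    rw [hk1]
    field_simp
  have hRr : ∀ I : Ideal R, (starRingEnd ℂ) (ψ I) *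
      (Real.exp (-(Real.pi * nm I / (ω.im * Real.sqrt (nm q))) * t) : ℂ) =
      (starRingEnd ℂ) (ψ I) * (Real.exp (-(k2 * nm I)) : ℂ) := by
    intro I
    congr 3
    rw [hk2]
    field_simp
  rw [tsum_congr hL, tsum_congr hRr]
  have hS1 : Summable (fun I : Ideal R => ψ I * (Real.exp (-(k1 * nm I)) : ℂ)) :=
    summ_exp h6 hR b3 ψ hψ0 hψle k1 hk1p
  have hS2 : Summable (fun I : Ideal R => (starRingEnd ℂ) (ψ I) *
      (Real.exp (-(k2 * nm I)) : ℂ)) :=
    summ_exp h6 hR b3 (fun I => (starRingEnd ℂ) (ψ I)) (by simp only [hψ0, map_zero])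
      (fun I => by rw [RCLike.norm_conj]; exact hψle I) k2 hk2p
  obtain ⟨hq1, hD1⟩ := h3 R ω hR s hS.cs
  obtain ⟨hq2, hD2⟩ := h3 R ω hR (s.image g) hCs'
  obtain ⟨hi1, ht1⟩ := hD1 (fun I : Ideal R => ψ I * (Real.exp (-(k1 * nm I)) : ℂ))
    (by simp only [hψ0, zero_mul])
  obtain ⟨-, ht2⟩ := hD2 (fun I : Ideal R => (starRingEnd ℂ) (ψ I) *
    (Real.exp (-(k2 * nm I)) : ℂ)) (by simp only [hψ0, map_zero, zero_mul])
  rw [ht1 hS1, ht2 hS2, Finset.sum_image hinj, Finset.mul_sum]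
  refine Finset.sum_congr rfl fun b hb => ?_
  have hbp := hpos b (hbne b hb)
  have hgp := hpos (g b) (hgne b hb)
  -- the left terms
  have hl : ∀ α : R, (if α ∈ b then ψ (quo b α) * (Real.exp (-(k1 * nm (quo b α))) : ℂ) else 0) =
      (ψ b)⁻¹ * (if α ∈ b then ψ (sp α) *
        (Real.exp (-(k1 / nm b * Complex.normSq (α : ℂ))) : ℂ) else 0) := by
    intro α
    by_cases h : α ∈ b
    · rw [if_pos h, if_pos h]
      exact quo_term hψ.mul b4 b5 (hψb b hb) hbp (hq1 b (hbne b hb) α h) k1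
    · rw [if_neg h, if_neg h, mul_zero]
  have hr : ∀ γ : R, (if γ ∈ g b then (starRingEnd ℂ) (ψ (quo (g b) γ)) *
      (Real.exp (-(k2 * nm (quo (g b) γ))) : ℂ) else 0) =
      ψ (g b) * (if γ ∈ g b then (starRingEnd ℂ) (ψ (sp γ)) *
        (Real.exp (-(k2 / nm (g b) * Complex.normSq (γ : ℂ))) : ℂ) else 0) := by
    intro γ
    by_cases h : γ ∈ g b
    · rw [if_pos h, if_pos h]
      have := quo_term (ψ := fun I => (starRingEnd ℂ) (ψ I)) (fun I J => by
        simp only [hψ.mul, map_mul]) b4 b5 (b := g b)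
        (by simpa using hψg b hb) hgp (hq2 (g b) (hgne b hb) γ h) k2
      rw [this, hconj _ (hψg b hb)]
    · rw [if_neg h, if_neg h, mul_zero]
  have hsum : Summable (fun β : R => if β ∈ b then ψ (sp β) *
      (Real.exp (-(k1 / nm b * Complex.normSq (β : ℂ))) : ℂ) else 0) := by
    have h := (hi1.1 hS1 b hb).mul_left (ψ b)
    refine h.congr fun β => ?_
    rw [hl β, ← mul_assoc, mul_inv_cancel₀ (hψb b hb), one_mul]
  have hTb : Rp q b T := by
    refine ⟨fun x hx => ?_, hS.rp.uni⟩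
    have h := hS.rp.mem x hx
    rw [hg b hb] at h
    have hle : b * g b ≤ b := Ideal.mul_le_left
    exact hle h
  have hga : ∀ γ ∈ g b, ∑ r ∈ T, ψ (sp r) * ez ω ((r : ℂ) * (γ : ℂ) / (μ : ℂ)) =
      (starRingEnd ℂ) (ψ (sp γ)) * gT ω 0 ψ μ T := by
    intro γ hγ
    have h := (h4 R ω hR 0 q ψ hψ hq s hh μ T hS).2 b (g b) (hg b hb).symm T hTb γ hγ
    simp only [hfp] at h
    exact h
  have hprn : q * b * g b = sp μ := by rw [mul_assoc, ← hg b hb, hS.prn]
  have key := per_b h5 hR (θ := fun α => ψ (sp α)) b4 b5 hQ hbp hgp hψ.ne (hbne b hb) (hgne b hb)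
    (hS.cp b hb).symm hprn hTb (fun α β h => by
      have := f5 α β h
      rwa [hfp, hfp] at this) hga t ht (k1 / nm b) (k2 / nm (g b)) rfl rfl hsum
  simp only [hl, hr]
  rw [tsum_mul_left, tsum_mul_left, key]
  have hhh : ψ hh = ψ b * ψ (g b) := by rw [hg b hb, hψ.mul]
  unfold Wz
  rw [hhh]
  have e1 := hψb b hb
  have e2 := hψg b hb
  have e3 : (Real.sqrt (nm q) : ℂ) ≠ 0 := by exact_mod_cast hsq.ne'
  field_simp

end Pool.Agent.W644.HK
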