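import Pool.Agent.W644.HK.CharP

/-!
# Naturality of the pairing in the coefficients and the group, lifting of matrices
-/

set_option autoImplicit false
set_option linter.unusedSectionVars false

namespace Pool.Agent.W644.HK

open Finset

universe u v w x y

section nat

variable {A : Type*} [CommRing A] {K : Type*} [CommRing K] {H : Type*} [Group H] {G : Type*}
  [Group G] {r : Type*} [Fintype r] [DecidableEq r] {V : Type*} [AddCommGroup V] [Module A V]
  {V' : Type*} [AddCommGroup V'] [Module K V']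

/-- the map of group algebras of a homomorphism of rings and of a homomorphism of groups -/
noncomputable def Th (ψ : A →+* K) (j : H →* G) : MonoidAlgebra A H →+* MonoidAlgebra K G :=
  (MonoidAlgebra.mapRingHom G ψ).comp (MonoidAlgebra.mapDomainRingHom A j)

@[simp] lemma Th_single (ψ : A →+* K) (j : H →* G) (h : H) (c : A) :
    Th ψ j (MonoidAlgebra.single h c) = MonoidAlgebra.single (j h) (ψ c) := by
  simp [Th]

lemma Th_injective (ψ : A →+* K) (j : H →* G) (hψ : Function.Injective ψ)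
    (hj : Function.Injective j) : Function.Injective (Th ψ j) := by
  intro a b h
  have h1 : MonoidAlgebra.map (ψ : A →+ K) (MonoidAlgebra.mapDomain j a) =
      MonoidAlgebra.map (ψ : A →+ K) (MonoidAlgebra.mapDomain j b) := h
  exact MonoidAlgebra.mapDomain_injective hj (MonoidAlgebra.map_injective (ψ : A →+ K) hψ h1)

lemma LL_Th (ψ : A →+* K) (j : H →* G) (ψ' : V →+ V') (hψ' : ∀ c v, ψ' (c • v) = ψ c • ψ' v)
    (φ : G → V') (φ' : H → V) (hφ : ∀ h, ψ' (φ' h) = φ (j h)) (a : MonoidAlgebra A H) :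
    LL φ (Th ψ j a) = ψ' (LL φ' a) := by
  induction a using MonoidAlgebra.induction_linear with
  | zero => simp
  | add a b ha hb => rw [map_add, map_add, map_add, map_add, ha, hb]
  | single h c => rw [Th_single, LL_single, LL_single, hψ', hφ]

/-- the map on matrices -/
noncomputable def ThM (r : Type*) [Fintype r] [DecidableEq r] (ψ : A →+* K) (j : H →* G) :
    Matrix r r (MonoidAlgebra A H) →+* Matrix r r (MonoidAlgebra K G) := (Th ψ j).mapMatrix

lemma ThM_apply (ψ : A →+* K) (j : H →* G) (X : Matrix r r (MonoidAlgebra A H)) (a b : r) :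
    ThM r ψ j X a b = Th ψ j (X a b) := rfl

lemma EE_Th (ψ : A →+* K) (j : H →* G) (ψ' : V →+ V') (hψ' : ∀ c v, ψ' (c • v) = ψ c • ψ' v)
    (Xs : List (Matrix r r (MonoidAlgebra A H))) (s t : r)
    (F : List G → V') (F' : List H → V) (hF : ∀ l, ψ' (F' l) = F (l.map j)) :
    EE (Xs.map (ThM r ψ j)) s t F = ψ' (EE Xs s t F') := by
  induction Xs generalizing s F F' with
  | nil =>
    rw [List.map_nil, EE_nil, EE_nil]
    split_ifs
    · exact (hF []).symm
    · rw [map_zero]
  | cons X Xs ih =>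
    rw [List.map_cons, EE_cons, EE_cons, map_sum]
    apply sum_congr rfl
    intro s' _
    rw [ThM_apply]
    apply LL_Th ψ j ψ' hψ'
    intro h
    exact (ih s' (fun l => F (j h :: l)) (fun l => F' (h :: l)) (fun l => by rw [hF]; rfl)).symm

lemma TT_Th (ψ : A →+* K) (j : H →* G) (ψ' : V →+ V') (hψ' : ∀ c v, ψ' (c • v) = ψ c • ψ' v)
    (Xs : List (Matrix r r (MonoidAlgebra A H))) (π : r ≃ r)
    (F : List G → V') (F' : List H → V) (hF : ∀ l, ψ' (F' l) = F (l.map j)) :
    TT π F (Xs.map (ThM r ψ j)) = ψ' (TT π F' Xs) := by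
  unfold TT
  rw [map_sum]
  apply sum_congr rfl
  intro s _
  exact EE_Th ψ j ψ' hψ' Xs s (π s) F F' hF

lemma XX_Th {𝒢' : Type*} [Group 𝒢'] {𝒢 : Type*} [Group 𝒢] (ι : 𝒢' →* 𝒢)
    (θ' : 𝒢' →* Matrix r r (MonoidAlgebra A H)) (θ : 𝒢 →* Matrix r r (MonoidAlgebra K G))
    (ψ : A →+* K) (j : H →* G) (hθ : ∀ a, θ (ι a) = ThM r ψ j (θ' a)) (x : List 𝒢') :
    XX θ (x.map ι) = (XX θ' x).map (ThM r ψ j) := by
  unfold XX
  rw [List.map_map, ← map_list_prod, ← map_inv, ← List.map_singleton, ← List.map_append,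
    List.map_map]
  apply List.map_congr_left
  intro a _
  exact hθ a

lemma SS_Th {𝒢' : Type*} [Group 𝒢'] {𝒢 : Type*} [Group 𝒢] (ι : 𝒢' →* 𝒢)
    (θ' : 𝒢' →* Matrix r r (MonoidAlgebra A H)) (θ : 𝒢 →* Matrix r r (MonoidAlgebra K G))
    (ψ : A →+* K) (j : H →* G) (hθ : ∀ a, θ (ι a) = ThM r ψ j (θ' a))
    (ψ' : V →+ V') (hψ' : ∀ c v, ψ' (c • v) = ψ c • ψ' v)
    (c : G → List G → V') (c' : H → List H → V) (hc : ∀ g l, ψ' (c' g l) = c (j g) (l.map j))
    (x : List 𝒢') : SS θ c (x.map ι) = ψ' (SS θ' c' x) := by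
  unfold SS
  rw [XX_Th ι θ' θ ψ j hθ]
  apply TT_Th ψ j ψ' hψ'
  intro l
  unfold CF
  rw [hc, map_list_prod, map_pts j (fun a b => map_mul j a b), map_one]

lemma getD_map_hom (j : H →* G) (l : List H) (i : ℕ) :
    (l.map j).getD i 1 = j (l.getD i 1) := by
  rw [List.getD_eq_getElem?_getD, List.getD_eq_getElem?_getD, List.getElem?_map]
  cases l[i]? <;> simp

lemma cf_map {W W' : Type*} [AddCommGroup W] [AddCommGroup W'] {n : ℕ} (j : H →* G)
    (ψ' : W →+ W') (f : (Fin (n + 1) → G) → W') (f' : (Fin (n + 1) → H) → W)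
    (hf : ∀ g, ψ' (f' g) = f fun i => j (g i)) (g : H) (l : List H) :
    ψ' (cf f' g l) = cf f (j g) (l.map j) := by
  unfold cf
  rw [List.length_map]
  split_ifs with h
  · rw [hf]
    congr 1
    funext i
    split_ifs with hi
    · rw [getD_map_hom, getD_map_hom]
      simp
    · rw [getD_map_hom, getD_map_hom]
      simp
  · rw [map_zero]

lemma bf_map {𝒢' : Type*} [Group 𝒢'] {𝒢 : Type*} [Group 𝒢] (ι : 𝒢' →* 𝒢) (i : ℕ) (l : List 𝒢') :
    (bf i l).map ι = bf i (l.map ι) := by
  cases i with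
  | zero =>
    rw [bf, bf, List.map_tail]
  | succ i =>
    rw [bf, bf, List.length_map]
    split_ifs
    · exact map_mg _ (fun a b => map_mul ι a b) i l
    · rw [List.map_dropLast]

/-- pulling back a cycle along an injective homomorphism -/
lemma isCyc_lift {𝒢' : Type y} [Group 𝒢'] {𝒢 : Type y} [Group 𝒢] (ι : 𝒢' →* 𝒢)
    (hι : Function.Injective ι) (B : Type u) [AddCommGroup B] {n : ℕ} {ι' : Type x}
    (I : Finset ι') (m : ι' → ℤ) (x : ι' → List 𝒢') (x' : ι' → List 𝒢)
    (hx : ∀ i ∈ I, x' i = (x i).map ι) (h : IsCyc B n I m x') : IsCyc B n I m x := by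
  refine ⟨fun i hi => ?_, fun γ => ?_⟩
  · have := h.1 i hi
    rwa [hx i hi, List.length_map] at this
  · rw [← h.2 (Function.extend (List.map ι) γ 0)]
    apply sum_congr rfl
    intro i hi
    congr 1
    apply sum_congr rfl
    intro j _
    rw [hx i hi, ← bf_map, (List.map_injective_iff.2 hι).extend_apply]

end nat

section lift

variable {K : Type u} [CommRing K] {Γ : Type v} [Group Γ] {r : Type w} [Fintype r] [DecidableEq r]

lemma exists_lift_elem (A : Subring K) (H : Subgroup Γ) (a : MonoidAlgebra K Γ)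
    (h1 : ∀ g, a.coeff g ∈ A) (h2 : ∀ g ∈ a.coeff.support, g ∈ H) :
    ∃ a' : MonoidAlgebra A H, Th A.subtype H.subtype a' = a := by
  have h3 : a = ∑ g ∈ a.coeff.support, MonoidAlgebra.single g (a.coeff g) := by
    ext g
    rw [MonoidAlgebra.coeff_sum, Finsupp.finsetSum_apply]
    simp only [MonoidAlgebra.coeff_single]
    rw [← Finsupp.finsetSum_apply]
    exact congrFun (congrArg _ (Finsupp.sum_single a.coeff).symm) g
  have h4 : a ∈ (Th A.subtype H.subtype).range := by
    rw [h3]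
    apply Subring.sum_mem
    intro g hg
    exact ⟨MonoidAlgebra.single ⟨g, h2 g hg⟩ ⟨a.coeff g, h1 g⟩, by simp⟩
  exact h4

lemma exists_lift_unit (A : Subring K) (H : Subgroup Γ) (X : (Matrix r r (MonoidAlgebra K Γ))ˣ)
    (h1 : ∀ a b g, (X.val a b).coeff g ∈ A) (h2 : ∀ a b, ∀ g ∈ (X.val a b).coeff.support, g ∈ H)
    (h3 : ∀ a b g, ((X⁻¹).val a b).coeff g ∈ A)
    (h4 : ∀ a b, ∀ g ∈ ((X⁻¹).val a b).coeff.support, g ∈ H) :
    ∃ X' : (Matrix r r (MonoidAlgebra A H))ˣ,
      Units.map (ThM r A.subtype H.subtype).toMonoidHom X' = X := by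
  choose Y hY using fun a b => exists_lift_elem A H (X.val a b) (h1 a b) (h2 a b)
  choose Z hZ using fun a b => exists_lift_elem A H ((X⁻¹).val a b) (h3 a b) (h4 a b)
  have hinj : Function.Injective (ThM r A.subtype H.subtype) := by
    intro M N h
    ext1 a b
    apply Th_injective A.subtype H.subtype Subtype.val_injective Subtype.val_injective
    rw [← ThM_apply, ← ThM_apply, h]
  have hY' : ThM r A.subtype H.subtype (Matrix.of Y) = X.val := by
    ext1 a b
    rw [ThM_apply]
    exact hY a b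
  have hZ' : ThM r A.subtype H.subtype (Matrix.of Z) = (X⁻¹).val := by
    ext1 a b
    rw [ThM_apply]
    exact hZ a b
  refine ⟨⟨Matrix.of Y, Matrix.of Z, ?_, ?_⟩, ?_⟩
  · apply hinj
    rw [map_mul, hY', hZ', map_one, Units.mul_inv]
  · apply hinj
    rw [map_mul, hY', hZ', map_one, Units.inv_mul]
  · apply Units.ext
    exact hY'

end lift

end Pool.Agent.W644.HK
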