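import Mathlib

/-!
# Hochschild cocycles on groups, bar cycles and the Dennis trace

* `IsHochschildCocycle f`: the function `f` on `G ^ (n + 1)` is a Hochschild `n`-cocycle of the
  group algebra of `G` (given by its values on tuples of group elements).
* `barBoundary z`: the boundary in the bar complex (inhomogeneous chains with coefficients `ℤ`).
* `dennis f z`: the value of the (multilinear extension of the) cochain `f` on the Dennis trace
  of a bar chain `z` of the group of invertible matrices over `k[G]`.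
-/

set_option autoImplicit false

namespace Pool.Agent.W644.HK

universe u v w x

/-- A function `f` on `G ^ (n + 1)` with values in an abelian group is a Hochschild `n`-cocycle if
`∑_{0 ≤ i ≤ n} (-1)^i f (g_0, …, g_i g_{i+1}, …, g_{n+1}) +
  (-1)^(n+1) f (g_{n+1} g_0, g_1, …, g_n) = 0` for all `g_0, …, g_{n+1}`. -/
def IsHochschildCocycle {G : Type v} [Group G] {V : Type x} [AddCommGroup V] {n : ℕ}
    (f : (Fin (n + 1) → G) → V) : Prop :=
  ∀ g : Fin (n + 2) → G,
    ∑ i : Fin (n + 1), (-1 : ℤ) ^ (i : ℕ) • f (Fin.contractNth i.castSucc (· * ·) g) +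
      (-1 : ℤ) ^ (n + 1) •
        f (Fin.cons (g (Fin.last (n + 1)) * g 0) fun i : Fin n => g i.castSucc.succ) = 0

/-- The boundary of the bar complex of a group (inhomogeneous chains with coefficients `ℤ`):
`∂ [x_1|…|x_{n+1}] = [x_2|…|x_{n+1}] + ∑_{1 ≤ j ≤ n} (-1)^j [x_1|…|x_j x_{j+1}|…|x_{n+1}] +
  (-1)^(n+1) [x_1|…|x_n]`. -/
noncomputable def barBoundary {𝒢 : Type v} [Group 𝒢] {n : ℕ} (z : (Fin (n + 1) → 𝒢) →₀ ℤ) :
    (Fin n → 𝒢) →₀ ℤ :=
  z.sum fun x a => Finsupp.single (fun i : Fin n => x i.succ) a +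
    ∑ j : Fin (n + 1), Finsupp.single (Fin.contractNth j (· * ·) x) ((-1) ^ ((j : ℕ) + 1) * a)

/-- the matrix of the coefficients at the group element `g` -/
def coeffMat {k : Type u} [CommRing k] {G : Type v} {r : Type w}
    (X : Matrix r r (MonoidAlgebra k G)) (g : G) : Matrix r r k := X.map fun a => a.coeff g

/-- The value of the multilinear extension of `f` on `tr (X_0 ⊗ ⋯ ⊗ X_n)`: if
`X_i = ∑_g X_i(g) g` with matrices `X_i(g)` over `k`, it is
`∑ tr (X_0(g_0) ⋯ X_n(g_n)) f (g_0, …, g_n)`, the (finite) sum over all `g_0, …, g_n`. -/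
noncomputable def trPairing {k : Type u} [CommRing k] {G : Type v} [Group G] {r : Type w}
    [Fintype r] [DecidableEq r] {V : Type x} [AddCommGroup V] [Module k V] {n : ℕ}
    (f : (Fin n → G) → V) (X : Fin n → Matrix r r (MonoidAlgebra k G)) : V :=
  ∑ᶠ g : Fin n → G, (List.ofFn fun i => coeffMat (X i) (g i)).prod.trace • f g

/-- The value of the cochain `f` on the Dennis trace
`[x_1|…|x_n] ↦ tr ((x_1 ⋯ x_n)⁻¹ ⊗ x_1 ⊗ ⋯ ⊗ x_n)` of a bar chain `z` of the group of invertible
matrices over the group algebra `k[G]`. -/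
noncomputable def dennis {k : Type u} [CommRing k] {G : Type v} [Group G] {r : Type w}
    [Fintype r] [DecidableEq r] {V : Type x} [AddCommGroup V] [Module k V] {n : ℕ}
    (f : (Fin (n + 1) → G) → V) (z : (Fin n → (Matrix r r (MonoidAlgebra k G))ˣ) →₀ ℤ) : V :=
  z.sum fun x a => a • trPairing f
    (Fin.cons (((List.ofFn x).prod⁻¹ : (Matrix r r (MonoidAlgebra k G))ˣ) :
      Matrix r r (MonoidAlgebra k G)) fun i => (x i : Matrix r r (MonoidAlgebra k G)))

end Pool.Agent.W644.HK
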