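import Pool.Agent.W644.HK.Iter
import Pool.Agent.W644.HK.Defs

/-!
# Translation between tuples and lists
-/

set_option autoImplicit false
set_option linter.unusedSectionVars false

namespace Pool.Agent.W644.HK

open Finset

universe u v w x y

section cocycle

variable {G : Type v} [Group G] {V : Type x} [AddCommGroup V]

/-- the family of homogeneous cochains of a Hochschild cochain -/
def cf {n : ℕ} (f : (Fin (n + 1) → G) → V) (g : G) (l : List G) : V :=
  if l.length = n + 1 then
    f fun i => if (i : ℕ) = 0 then (l.getD n 1)⁻¹ * g * l.getD 0 1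
      else (l.getD (i - 1) 1)⁻¹ * l.getD i 1
  else 0

lemma getD_map_mul (x : G) (l : List G) (i : ℕ) (hi : i < l.length) :
    (l.map (x * ·)).getD i 1 = x * l.getD i 1 := by
  rw [List.getD_eq_getElem _ _ (by simpa using hi), List.getD_eq_getElem _ _ hi, List.getElem_map]

lemma cf_equiv {n : ℕ} (f : (Fin (n + 1) → G) → V) (x g : G) (l : List G) :
    cf f (x * g * x⁻¹) (l.map (x * ·)) = cf f g l := by
  unfold cf
  rw [List.length_map]
  split_ifs with h
  · congr 1
    funext i
    split_ifs with hi
    · rw [getD_map_mul _ _ _ (by omega), getD_map_mul _ _ _ (by omega)]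
      group
    · have := i.2
      rw [getD_map_mul _ _ _ (by omega), getD_map_mul _ _ _ (by omega)]
      group
  · rfl

lemma getD_eraseIdx (l : List G) (i k : ℕ) :
    (l.eraseIdx i).getD k 1 = if k < i then l.getD k 1 else l.getD (k + 1) 1 := by
  rw [List.getD_eq_getElem?_getD, List.getElem?_eraseIdx]
  split_ifs <;> rw [List.getD_eq_getElem?_getD]

/-- the word of a list of points -/
def wd {n : ℕ} (g : G) (l : List G) (i : Fin (n + 2)) : G :=
  if (i : ℕ) = 0 then (l.getD (n + 1) 1)⁻¹ * g * l.getD 0 1
  else (l.getD (i - 1) 1)⁻¹ * l.getD i 1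

lemma cf_eraseIdx_castSucc {n : ℕ} (f : (Fin (n + 1) → G) → V) (g : G) (l : List G)
    (hl : l.length = n + 2) (i : Fin (n + 1)) :
    cf f g (l.eraseIdx i) = f (Fin.contractNth i.castSucc (· * ·) (wd g l)) := by
  have hlen : (l.eraseIdx i).length = n + 1 := by
    rw [List.length_eraseIdx_of_lt (by omega), hl]
    rfl
  rw [cf, if_pos hlen]
  congr 1
  funext k
  have hk := k.2
  have hi := i.2
  simp only [getD_eraseIdx, Fin.contractNth, wd, Fin.val_castSucc, Fin.val_succ]
  by_cases hk0 : (k : ℕ) = 0
  · simp only [hk0]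
    by_cases hi0 : (i : ℕ) = 0
    · simp only [hi0]
      simp [mul_assoc]
    · have h1 : 0 < (i : ℕ) := Nat.pos_of_ne_zero hi0
      have h2 : ¬ n < (i : ℕ) := by omega
      simp [h1, h2]
  · by_cases h1 : (k : ℕ) < i
    · have h2 : (k : ℕ) - 1 < i := by omega
      simp [hk0, h1, h2]
    · by_cases h2 : (k : ℕ) = i
      · have h3 : (i : ℕ) - 1 < i := by omega
        have h4 : ¬ (i : ℕ) = 0 := by omega
        simp [h2, h3, h4, mul_assoc]
      · have h3 : ¬ (k : ℕ) - 1 < i := by omega
        have h4 : (k : ℕ) - 1 + 1 = k := by omega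
        simp [hk0, h1, h2, h3, h4]

lemma cf_eraseIdx_last {n : ℕ} (f : (Fin (n + 1) → G) → V) (g : G) (l : List G)
    (hl : l.length = n + 2) :
    cf f g (l.eraseIdx (n + 1)) =
      f (Fin.cons (wd g l (Fin.last (n + 1)) * wd g l (0 : Fin (n + 2)))
        fun i : Fin n => wd g l (i.castSucc.succ : Fin (n + 2))) := by
  have hlen : (l.eraseIdx (n + 1)).length = n + 1 := by
    rw [List.length_eraseIdx_of_lt (by omega), hl]
    rfl
  rw [cf, if_pos hlen]
  congr 1
  funext k
  refine Fin.cases ?_ (fun j => ?_) k
  · simp only [getD_eraseIdx, Fin.cons_zero, wd, Fin.val_zero, Fin.val_last]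
    simp [mul_assoc]
  · have hj := j.2
    have h1 : (j : ℕ) < n + 1 := by omega
    have h2 : (j : ℕ) + 1 < n + 1 := by omega
    simp only [getD_eraseIdx, Fin.cons_succ, wd, Fin.val_succ, Fin.val_castSucc]
    simp [h1, h2]

lemma fam_cf {n : ℕ} (f : (Fin (n + 1) → G) → V) (hf : IsHochschildCocycle f) :
    Fam n (cf f) where
  equiv := cf_equiv f
  coc g l hl := by
    rw [bd_eq_sum, hl, sum_range_succ, ← hf (wd g l)]
    congr 1
    · rw [← Fin.sum_univ_eq_sum_range fun i => (-1 : ℤ) ^ i • cf f g (l.eraseIdx i)]
      apply sum_congr rfl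
      intro i _
      rw [cf_eraseIdx_castSucc f g l hl i]
    · rw [cf_eraseIdx_last f g l hl]

end cocycle

section bar

lemma getElem?_mg {M : Type*} [Mul M] (i : ℕ) (l : List M) (h : i + 1 < l.length) (k : ℕ) :
    (mg i l)[k]? = if k < i then l[k]? else
      if k = i then some (l[i] * l[i + 1]) else l[k + 1]? := by
  induction i generalizing l k with
  | zero =>
    match l, h with
    | [], h => simp at h
    | [a], h => simp at h
    | a :: b :: l, h =>
      match k with
      | 0 => simp
      | k + 1 => simp
  | succ i ih =>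
    match l, h with
    | [], h => simp at h
    | a :: l, h =>
      rw [mg_succ_cons]
      match k with
      | 0 => simp
      | k + 1 =>
        have h' : i + 1 < l.length := by simpa using h
        rw [List.getElem?_cons_succ, ih l h' k]
        simp

lemma bf_succ_ofFn {M : Type*} [Mul M] {n : ℕ} (x : Fin (n + 1) → M) (j : Fin (n + 1)) :
    bf (j + 1) (List.ofFn x) = List.ofFn (Fin.contractNth j (· * ·) x) := by
  have hj := j.2
  rw [bf]
  split_ifs with h
  · rw [List.length_ofFn] at h
    apply List.ext_getElem?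
    intro k
    rw [getElem?_mg _ _ (by rw [List.length_ofFn]; exact h)]
    by_cases hk : k < n
    · have hR : (List.ofFn (Fin.contractNth j (· * ·) x))[k]? =
          some (Fin.contractNth j (· * ·) x ⟨k, hk⟩) := by
        rw [List.getElem?_eq_getElem (by rw [List.length_ofFn]; exact hk), List.getElem_ofFn]
      rw [hR]
      unfold Fin.contractNth
      simp only []
      split_ifs with h1 h2
      · rw [List.getElem?_eq_getElem (by rw [List.length_ofFn]; omega), List.getElem_ofFn]
        rfl
      · rw [List.getElem_ofFn, List.getElem_ofFn]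
        subst h2
        rfl
      · rw [List.getElem?_eq_getElem (by rw [List.length_ofFn]; omega), List.getElem_ofFn]
        rfl
    · rw [if_neg (by omega), if_neg (by omega), List.getElem?_eq_none (by rw [List.length_ofFn]; omega),
        List.getElem?_eq_none (by rw [List.length_ofFn]; omega)]
  · rw [List.length_ofFn] at h
    have hjn : (j : ℕ) = n := by omega
    apply List.ext_getElem
    · simp
    · intro k h1 h2
      rw [List.getElem_dropLast, List.getElem_ofFn, List.getElem_ofFn, Fin.contractNth, if_pos]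
      · rfl
      · simp only [List.length_ofFn] at h2
        simpa [hjn] using h2

lemma bf_zero_ofFn {M : Type*} [Mul M] {n : ℕ} (x : Fin (n + 1) → M) :
    bf 0 (List.ofFn x) = List.ofFn fun i : Fin n => x i.succ := by
  rw [bf, List.ofFn_succ, List.tail_cons]

/-- cycles in the bar complex, tested on functions -/
lemma isCyc_of_barBoundary {𝒢 : Type y} [Group 𝒢] {n : ℕ} (z : (Fin (n + 1) → 𝒢) →₀ ℤ)
    (hz : barBoundary z = 0) (A : Type u) [AddCommGroup A] :
    IsCyc A (n + 1) z.support z fun x => List.ofFn x := by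
  refine ⟨fun x _ => by simp, fun γ => ?_⟩
  let Φ : ((Fin n → 𝒢) →₀ ℤ) →+ A := Finsupp.liftAddHom fun y =>
    (zmultiplesHom A) (γ (List.ofFn y))
  have hΦ : ∀ y a, Φ (Finsupp.single y a) = a • γ (List.ofFn y) := by
    intro y a
    simp [Φ]
  have h1 : Φ (barBoundary z) = 0 := by rw [hz, map_zero]
  rw [← h1, barBoundary, Finsupp.sum, map_sum]
  apply sum_congr rfl
  intro x _
  rw [map_add, map_sum, hΦ, sum_range_succ', smul_add, add_comm]
  congr 1
  · rw [pow_zero, one_smul, bf_zero_ofFn]
  · rw [smul_sum, ← Fin.sum_univ_eq_sum_range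
      fun j => z x • (-1 : ℤ) ^ (j + 1) • γ (bf (j + 1) (List.ofFn x))]
    apply sum_congr rfl
    intro j _
    rw [hΦ, bf_succ_ofFn, smul_smul, mul_comm]

end bar

section pairing

variable {k : Type u} [CommRing k] {G : Type v} [Group G] {r : Type w} [Fintype r] [DecidableEq r]
  {V : Type x} [AddCommGroup V] [Module k V]

lemma mu_eq_zipWith (Xs : List (Matrix r r (MonoidAlgebra k G))) (s t : r) (l : List G)
    (hl : l.length = Xs.length) : mu Xs s t l = (List.zipWith coeffMat Xs l).prod s t := by
  induction Xs generalizing s l with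
  | nil =>
    match l, hl with
    | [], _ => rw [mu_nil_nil, List.zipWith_nil_left, List.prod_nil, Matrix.one_apply]
  | cons X Xs ih =>
    match l, hl with
    | h :: l, hl =>
      rw [mu_cons_cons, List.zipWith_cons_cons, List.prod_cons, Matrix.mul_apply]
      apply sum_congr rfl
      intro s' _
      rw [ih s' l (by simpa using hl)]
      rfl

lemma length_of_mem_Lset (Xs : List (Matrix r r (MonoidAlgebra k G))) (l : List G)
    (hl : l ∈ Lset Xs) : l.length = Xs.length := by
  classical
  rw [Lset, mem_biUnion] at hl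
  obtain ⟨s, _, hl⟩ := hl
  rw [mem_biUnion] at hl
  obtain ⟨t, _, hl⟩ := hl
  exact length_of_mem Xs s t l (Finsupp.mem_support_iff.1 hl)

lemma TT_eq_sum (Xs : List (Matrix r r (MonoidAlgebra k G))) (F : List G → V) :
    TT (Equiv.refl r) F Xs =
      ∑ l ∈ Lset Xs, (List.zipWith coeffMat Xs l).prod.trace • F l := by
  unfold TT
  have h1 : ∀ s : r, EE Xs s (Equiv.refl r s) F = ∑ l ∈ Lset Xs, mu Xs s s l • F l := by
    intro s
    rw [EE_eq_sum]
    apply sum_subset
    · intro l hl
      exact mem_Lset Xs s s l (Finsupp.mem_support_iff.1 hl)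
    · intro l _ hl
      rw [Equiv.refl_apply] at hl ⊢
      rw [Finsupp.notMem_support_iff.1 hl, zero_smul]
  simp_rw [h1]
  rw [sum_comm]
  apply sum_congr rfl
  intro l hl
  rw [← sum_smul]
  congr 1
  rw [Matrix.trace]
  apply sum_congr rfl
  intro s _
  have hlen : l.length = Xs.length := length_of_mem_Lset Xs l hl
  rw [mu_eq_zipWith Xs s s l hlen]
  rfl

lemma getD_pts (y : G) (l : List G) (i : ℕ) (hi : i < l.length) :
    (pts y l).getD i 1 = y * (l.take i).prod := by
  induction l generalizing y i with
  | nil => simp at hi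
  | cons h l ih =>
    match i with
    | 0 => simp
    | i + 1 =>
      rw [pts_cons, List.getD_cons_succ, ih _ _ (by simpa using hi)]
      simp [mul_assoc]

/-- the rotated list of letters -/
def rot {n : ℕ} (g : Fin (n + 1) → G) : List G := (List.ofFn fun i : Fin n => g i.succ) ++ [g 0]

lemma rot_injective {n : ℕ} : Function.Injective (rot : (Fin (n + 1) → G) → List G) := by
  intro g g' h
  unfold rot at h
  obtain ⟨h1, h2⟩ := List.append_inj h (by simp)
  have h3 := List.ofFn_injective h1
  funext i
  refine Fin.cases ?_ (fun j => ?_) i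
  · simpa using h2
  · exact congrFun h3 j

lemma exists_rot {n : ℕ} (l : List G) (hl : l.length = n + 1) :
    ∃ g : Fin (n + 1) → G, rot g = l := by
  have hne : l ≠ [] := by
    rintro rfl
    simp at hl
  have hlen : l.dropLast.length = n := by simp [hl]
  refine ⟨Fin.cons (l.getLast hne) fun i : Fin n => l.dropLast.get (i.cast hlen.symm), ?_⟩
  unfold rot
  simp only [Fin.cons_succ, Fin.cons_zero]
  have h1 : (List.ofFn fun i : Fin n => l.dropLast.get (i.cast hlen.symm)) = l.dropLast := by
    apply List.ext_getElem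
    · simp [hl]
    · intro i h1 h2
      simp
  rw [h1, List.dropLast_append_getLast]

lemma cf_rot {n : ℕ} (f : (Fin (n + 1) → G) → V) (g : Fin (n + 1) → G) :
    cf f (rot g).prod (pts 1 (rot g)) = f g := by
  have hlen : (rot g).length = n + 1 := by simp [rot]
  rw [cf, if_pos (by rw [length_pts, hlen])]
  congr 1
  funext i
  have hi := i.2
  refine Fin.cases ?_ (fun j => ?_) i
  · rw [if_pos (by simp), getD_pts _ _ _ (by omega), getD_pts _ _ _ (by omega)]
    simp [rot]
  · have hj := j.2
    rw [if_neg (by simp), getD_pts _ _ _ (by rw [hlen, Fin.val_succ]; omega),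
      getD_pts _ _ _ (by rw [hlen, Fin.val_succ]; omega)]
    simp only [Fin.val_succ, Nat.add_sub_cancel, one_mul]
    have h1 : (rot g).take ((j : ℕ) + 1) = (rot g).take j ++ [g j.succ] := by
      rw [List.take_add_one]
      congr 1
      rw [rot, List.getElem?_append_left (by simp), List.getElem?_eq_getElem (by simp)]
      simp
    rw [h1, List.prod_append]
    simp

lemma trPairing_eq {𝒢 : Type y} [Group 𝒢] (θ : 𝒢 →* Matrix r r (MonoidAlgebra k G)) {n : ℕ}
    (f : (Fin (n + 1) → G) → V) (x : Fin n → 𝒢) :
    trPairing f (Fin.cons (θ (List.ofFn x).prod⁻¹) fun i => θ (x i)) =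
      SS θ (cf f) (List.ofFn x) := by
  classical
  set X : Fin (n + 1) → Matrix r r (MonoidAlgebra k G) :=
    Fin.cons (θ (List.ofFn x).prod⁻¹) fun i => θ (x i) with hX
  have hXX : XX θ (List.ofFn x) = (List.ofFn fun i : Fin n => X i.succ) ++ [X 0] := by
    rw [XX, List.map_append, List.map_ofFn, hX]
    rfl
  rw [SS, TT_eq_sum, hXX]
  have hT : ∀ g : Fin (n + 1) → G,
      (List.ofFn fun i => coeffMat (X i) (g i)).prod.trace • f g =
      (List.zipWith coeffMat ((List.ofFn fun i : Fin n => X i.succ) ++ [X 0]) (rot g)).prod.trace •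
        CF (cf f) (rot g) := by
    intro g
    rw [CF, cf_rot]
    congr 1
    rw [rot, List.zipWith_append (by simp), List.prod_append, List.ofFn_succ, List.prod_cons,
      Matrix.trace_mul_comm]
    congr 2
    · congr 1
      apply List.ext_getElem
      · simp
      · intro i h1 h2
        simp
    · simp
  unfold trPairing
  simp_rw [hT]
  rw [← sum_preimage rot (Lset ((List.ofFn fun i : Fin n => X i.succ) ++ [X 0]))
    rot_injective.injOn (fun l => (List.zipWith coeffMat ((List.ofFn fun i : Fin n => X i.succ) ++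
      [X 0]) l).prod.trace • CF (cf f) l)]
  · apply finsum_eq_sum_of_support_subset
    intro g hg
    rw [Finset.coe_preimage, Set.mem_preimage, Finset.mem_coe]
    by_contra hcon
    apply hg
    have h1 : (List.zipWith coeffMat ((List.ofFn fun i : Fin n => X i.succ) ++ [X 0])
        (rot g)).prod.trace = 0 := by
      rw [Matrix.trace]
      apply sum_eq_zero
      intro s _
      rw [Matrix.diag_apply, ← mu_eq_zipWith _ _ _ _ (by simp [rot])]
      by_contra hne
      exact hcon (mem_Lset _ _ _ _ hne)
    simp only [h1, zero_smul]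
  · intro l hl hnr
    exfalso
    apply hnr
    have := length_of_mem_Lset _ _ hl
    exact exists_rot l (by simpa using this)

end pairing

end Pool.Agent.W644.HK
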