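import Mathlib

/-!
# Lists of letters and points, homogeneous coboundary and prism operator
-/

set_option autoImplicit false

namespace Pool.Agent.W644.HK

open Finset

universe u v w

section merge

variable {M : Type u}

/-- merge the entries `i` and `i + 1` -/
def mg [Mul M] : ℕ → List M → List M
  | 0, a :: b :: l => (a * b) :: l
  | i + 1, a :: l => a :: mg i l
  | _, l => l

@[simp] lemma mg_zero_cons [Mul M] (a b : M) (l : List M) : mg 0 (a :: b :: l) = (a * b) :: l := rfl

@[simp] lemma mg_succ_cons [Mul M] (i : ℕ) (a : M) (l : List M) :
    mg (i + 1) (a :: l) = a :: mg i l := by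
  cases l <;> rfl

lemma length_mg [Mul M] (i : ℕ) (l : List M) (h : i + 1 < l.length) :
    (mg i l).length + 1 = l.length := by
  induction i generalizing l with
  | zero =>
    match l, h with
    | [], h => simp at h
    | [a], h => simp at h
    | a :: b :: l, h => simp
  | succ i ih =>
    match l, h with
    | [], h => simp at h
    | a :: l, h =>
      rw [mg_succ_cons]
      simp only [List.length_cons] at h ⊢
      rw [ih l (by omega)]

lemma prod_mg [Monoid M] (i : ℕ) (l : List M) : (mg i l).prod = l.prod := by
  induction i generalizing l with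
  | zero =>
    match l with
    | [] => rfl
    | [a] => rfl
    | a :: b :: l => simp [mul_assoc]
  | succ i ih =>
    match l with
    | [] => rfl
    | a :: l =>
      rw [mg_succ_cons, List.prod_cons, List.prod_cons, ih l]

lemma map_mg {N : Type v} [Mul M] [Mul N] (φ : M → N) (hφ : ∀ a b, φ (a * b) = φ a * φ b)
    (i : ℕ) (l : List M) : (mg i l).map φ = mg i (l.map φ) := by
  induction i generalizing l with
  | zero =>
    match l with
    | [] => rfl
    | [a] => rfl
    | a :: b :: l => simp [hφ]
  | succ i ih =>
    match l with
    | [] => rfl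
    | a :: l =>
      rw [mg_succ_cons, List.map_cons, List.map_cons, mg_succ_cons, ih l]

/-- merging the last two entries -/
lemma mg_append_last [Mul M] (l : List M) (a b : M) (i : ℕ) (hi : i = l.length) :
    mg i (l ++ [a, b]) = l ++ [a * b] := by
  subst hi
  induction l with
  | nil => rfl
  | cons c l ih => simp [ih]

end merge

section points

variable {H : Type u}

/-- the initial points of the letters of a word starting at `y` -/
def pts [Mul H] : H → List H → List H
  | _, [] => []
  | y, h :: l => y :: pts (y * h) l

@[simp] lemma pts_nil [Mul H] (y : H) : pts y [] = [] := rfl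

@[simp] lemma pts_cons [Mul H] (y h : H) (l : List H) : pts y (h :: l) = y :: pts (y * h) l := rfl

@[simp] lemma length_pts [Mul H] (y : H) (l : List H) : (pts y l).length = l.length := by
  induction l generalizing y with
  | nil => rfl
  | cons h l ih => simp [ih]

lemma pts_mg [Monoid H] (i : ℕ) (y : H) (l : List H) (h : i + 1 < l.length) :
    pts y (mg i l) = (pts y l).eraseIdx (i + 1) := by
  induction i generalizing y l with
  | zero =>
    match l, h with
    | [], h => simp at h
    | [a], h => simp at h
    | a :: b :: l, h => simp [mul_assoc]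
  | succ i ih =>
    match l, h with
    | [], h => simp at h
    | a :: l, h =>
      rw [mg_succ_cons, pts_cons, pts_cons, List.eraseIdx_cons_succ, ih]
      simpa using h

lemma pts_mul [Monoid H] (x y : H) (l : List H) : pts (x * y) l = (pts y l).map (x * ·) := by
  induction l generalizing y with
  | nil => rfl
  | cons h l ih => simp [← ih, mul_assoc]

lemma map_pts {N : Type v} [Mul H] [Mul N] (φ : H → N) (hφ : ∀ a b, φ (a * b) = φ a * φ b)
    (y : H) (l : List H) : (pts y l).map φ = pts (φ y) (l.map φ) := by
  induction l generalizing y with
  | nil => rfl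
  | cons h l ih => simp [ih, hφ]

lemma pts_append [Monoid H] (y : H) (l l' : List H) :
    pts y (l ++ l') = pts y l ++ pts (y * l.prod) l' := by
  induction l generalizing y with
  | nil => simp
  | cons h l ih => simp [ih, mul_assoc]

end points

section bd

variable {α : Type u} {β : Type w} {V : Type v} [AddCommGroup V]

/-- homogeneous coboundary on functions of lists -/
def bd : (List α → V) → List α → V
  | _, [] => 0
  | c, a :: l => c l - bd (fun l' => c (a :: l')) l

@[simp] lemma bd_nil (c : List α → V) : bd c [] = 0 := by rw [bd]

lemma bd_cons (c : List α → V) (a : α) (l : List α) :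
    bd c (a :: l) = c l - bd (fun l' => c (a :: l')) l := by rw [bd]

lemma bd_eq_sum (c : List α → V) (l : List α) :
    bd c l = ∑ i ∈ range l.length, (-1 : ℤ) ^ i • c (l.eraseIdx i) := by
  induction l generalizing c with
  | nil => simp
  | cons a l ih =>
    rw [bd_cons, ih, List.length_cons, sum_range_succ']
    simp only [List.eraseIdx_cons_succ, pow_succ, mul_neg, mul_one, neg_smul, sum_neg_distrib,
      List.eraseIdx_cons_zero, pow_zero, one_smul]
    abel

lemma bd_sub (c c' : List α → V) (l : List α) :
    bd (fun l => c l - c' l) l = bd c l - bd c' l := by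
  induction l generalizing c c' with
  | nil => simp
  | cons a l ih =>
    rw [bd_cons, bd_cons, bd_cons, ih]
    abel

lemma bd_map (c : List β → V) (e : α → β) (l : List α) :
    bd (fun l => c (l.map e)) l = bd c (l.map e) := by
  induction l generalizing c with
  | nil => simp
  | cons a l ih =>
    rw [List.map_cons, bd_cons, bd_cons]
    have := ih (fun l' => c (e a :: l'))
    simp only [List.map_cons]
    rw [this]

/-- the prism operator of two vertex maps -/
def prism (e0 e1 : α → β) : (List β → V) → List α → V
  | _, [] => 0
  | c, a :: l => c (e0 a :: e1 a :: l.map e1) - prism e0 e1 (fun l' => c (e0 a :: l')) l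

@[simp] lemma prism_nil (e0 e1 : α → β) (c : List β → V) : prism e0 e1 c [] = 0 := by rw [prism]

lemma prism_cons (e0 e1 : α → β) (c : List β → V) (a : α) (l : List α) :
    prism e0 e1 c (a :: l) =
      c (e0 a :: e1 a :: l.map e1) - prism e0 e1 (fun l' => c (e0 a :: l')) l := by rw [prism]

lemma prism_sub (e0 e1 : α → β) (c c' : List β → V) (l : List α) :
    prism e0 e1 (fun l => c l - c' l) l = prism e0 e1 c l - prism e0 e1 c' l := by
  induction l generalizing c c' with
  | nil => simp
  | cons a l ih =>
    rw [prism_cons, prism_cons, prism_cons, ih]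
    abel

lemma prism_identity (e0 e1 : α → β) (c : List β → V) (l : List α) :
    bd (prism e0 e1 c) l + prism e0 e1 (bd c) l = c (l.map e1) - c (l.map e0) := by
  induction l generalizing c with
  | nil => simp
  | cons a l ih =>
    rw [bd_cons, prism_cons]
    have h1 : (fun l' => prism e0 e1 c (a :: l')) = fun l' =>
        (fun l' => c (e0 a :: e1 a :: l'.map e1)) l' -
          (prism e0 e1 (fun l' => c (e0 a :: l'))) l' := by
      funext l'
      rw [prism_cons]
    rw [h1, bd_sub]
    have h2 : (fun l' => bd c (e0 a :: l')) = fun l' =>
        c l' - bd (fun l' => c (e0 a :: l')) l' := by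
      funext l'
      rw [bd_cons]
    rw [h2, prism_sub]
    have h3 := ih (fun l' => c (e0 a :: l'))
    have h4 := bd_map (fun l' => c (e0 a :: e1 a :: l')) e1 l
    rw [h4, bd_cons, bd_cons]
    simp only [List.map_cons]
    have h5 : bd (prism e0 e1 fun l' => c (e0 a :: l')) l =
      c (e0 a :: l.map e1) - c (e0 a :: l.map e0) -
        prism e0 e1 (bd fun l' => c (e0 a :: l')) l := by
      rw [← h3]
      abel
    rw [h5]
    abel

lemma prism_congr {α' : Type*} {β' : Type*} (e0 e1 : α → β) (e0' e1' : α' → β') (φ : α → α')
    (ψ : β → β') (h0 : ∀ a, e0' (φ a) = ψ (e0 a)) (h1 : ∀ a, e1' (φ a) = ψ (e1 a))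
    (c : List β → V) (c' : List β' → V) (hc : ∀ l, c' (l.map ψ) = c l) (l : List α) :
    prism e0' e1' c' (l.map φ) = prism e0 e1 c l := by
  induction l generalizing c c' with
  | nil => simp
  | cons a l ih =>
    rw [List.map_cons, prism_cons, prism_cons]
    rw [ih (fun l' => c (e0 a :: l')) (fun l' => c' (e0' (φ a) :: l'))
      (fun l => by
        have := hc (e0 a :: l)
        rw [List.map_cons, ← h0] at this
        exact this)]
    congr 1
    rw [← hc]
    simp [h0, h1, Function.comp_def]

end bd

end Pool.Agent.W644.HK
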