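import Pool.Agent.W644.HK.Trans

/-!
# The Dennis trace in characteristic `p`
-/

set_option autoImplicit false
set_option linter.unusedSectionVars false

namespace Pool.Agent.W644.HK

open Finset

universe u v w x y

section aux

variable {G : Type v} [Group G] {V : Type x} [AddCommGroup V]

lemma prod_telescope (a : ℕ → G) (q : G) (m : ℕ) :
    (List.ofFn fun i : Fin (m + 1) => if (i : ℕ) = 0 then q * a 0 else
      (a (i - 1))⁻¹ * a i).prod = q * a m := by
  induction m with
  | zero => simp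
  | succ m ih =>
    rw [List.ofFn_succ', List.concat_eq_append, List.prod_append]
    have h1 : (List.ofFn fun i : Fin (m + 1) => if ((i.castSucc : Fin (m + 2)) : ℕ) = 0 then
        q * a 0 else (a ((i.castSucc : Fin (m + 2)) - 1 : ℕ))⁻¹ * a (i.castSucc : Fin (m + 2))).prod =
        q * a m := by
      rw [← ih]
      rfl
    rw [h1]
    simp

/-- the letters of a list of points -/
def lt {n : ℕ} (g : G) (l : List G) (i : Fin (n + 1)) : G :=
  if (i : ℕ) = 0 then (l.getD n 1)⁻¹ * g * l.getD 0 1 else (l.getD (i - 1) 1)⁻¹ * l.getD i 1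

lemma cf_of_length {n : ℕ} (f : (Fin (n + 1) → G) → V) (g : G) (l : List G)
    (hl : l.length = n + 1) : cf f g l = f (lt g l) := by
  rw [cf, if_pos hl]
  rfl

lemma cf_of_length_ne {n : ℕ} (f : (Fin (n + 1) → G) → V) (g : G) (l : List G)
    (hl : l.length ≠ n + 1) : cf f g l = 0 := by
  rw [cf, if_neg hl]

lemma prod_lt {n : ℕ} (g : G) (l : List G) :
    (List.ofFn (lt (n := n) g l)).prod = (l.getD n 1)⁻¹ * g * l.getD n 1 :=
  prod_telescope (fun i => l.getD i 1) ((l.getD n 1)⁻¹ * g) n

lemma lt_zero {n : ℕ} (g : G) (l : List G) :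
    lt (n := n) g l 0 = (l.getD n 1)⁻¹ * g * l.getD 0 1 := by
  simp [lt]

lemma prod_tail_lt {n : ℕ} (g : G) (l : List G) :
    (List.ofFn fun i : Fin n => lt g l i.succ).prod = (l.getD 0 1)⁻¹ * l.getD n 1 := by
  have h1 := prod_lt (n := n) g l
  rw [List.ofFn_succ, List.prod_cons, lt_zero] at h1
  have h2 : (List.ofFn fun i : Fin n => lt g l i.succ).prod =
      ((l.getD n 1)⁻¹ * g * l.getD 0 1)⁻¹ * ((l.getD n 1)⁻¹ * g * l.getD n 1) := by
    rw [← h1]
    group
  rw [h2]
  group

lemma cf_eq_zero {n : ℕ} (f : (Fin (n + 1) → G) → V) (Q : G → Prop)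
    (hQ : ∀ x g, Q g → Q (x * g * x⁻¹))
    (hf : ∀ g : Fin (n + 1) → G, Q (List.ofFn g).prod → f g = 0) (g : G) (hg : Q g) (l : List G) :
    cf f g l = 0 := by
  by_cases hl : l.length = n + 1
  · rw [cf_of_length f g l hl]
    apply hf
    rw [prod_lt]
    have := hQ (l.getD n 1)⁻¹ g hg
    rwa [inv_inv] at this
  · exact cf_of_length_ne f g l hl

end aux

variable {k : Type u} [CommRing k] {G : Type v} [Group G] {r : Type w} [Fintype r] [DecidableEq r]
  {V : Type x} [AddCommGroup V] [Module k V] {p : ℕ} [hp : Fact p.Prime]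

lemma dennis_eq {n : ℕ} (f : (Fin (n + 1) → G) → V)
    (z : (Fin n → (Matrix r r (MonoidAlgebra k G))ˣ) →₀ ℤ) :
    dennis f z = ∑ x ∈ z.support, z x • SS (Units.coeHom _) (cf f) (List.ofFn x) := by
  unfold dennis Finsupp.sum
  apply sum_congr rfl
  intro x _
  rw [← trPairing_eq]
  rfl

/-- the Frobenius relation -/
theorem dennis_frob [CharP k p] (hroot : ∀ a b : G, a ^ p = b ^ p → a = b) {n : ℕ}
    (z : (Fin (n + 1) → (Matrix r r (MonoidAlgebra k G))ˣ) →₀ ℤ) (hz : barBoundary z = 0)
    (f f' : (Fin (n + 2) → G) → k) (hf : IsHochschildCocycle f) (hfr : ∀ g, f g ^ p = f g)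
    (h1 : ∀ (g : Fin (n + 2) → G) (h : G),
      h ^ p = (List.ofFn fun i : Fin (n + 1) => g i.succ).prod * g 0 →
        f' g = f (Fin.cons ((List.ofFn fun i : Fin (n + 1) => g i.succ).prod⁻¹ * h)
          fun i => g i.succ))
    (h2 : ∀ g : Fin (n + 2) → G,
      (∀ h : G, h ^ p ≠ (List.ofFn fun i : Fin (n + 1) => g i.succ).prod * g 0) → f' g = 0) :
    dennis f' z = dennis f z ^ p := by
  rw [dennis_eq, dennis_eq]
  have hfam := fam_cf f hf
  have hcyc := isCyc_of_barBoundary z hz k
  rw [← frob_congr hroot (Units.coeHom _) (n + 1) (by omega) (cf f) hfam.equiv hfam.coc ?_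
    z.support z (fun x => List.ofFn x) hcyc.1 hcyc.2]
  · apply sum_congr rfl
    intro x _
    congr 1
    apply SS_congr
    intro l hl
    generalize l.prod = P
    generalize pts 1 l = y
    by_cases hy : y.length = n + 2
    · rw [cf_of_length f' P y hy]
      have hprod : (List.ofFn fun i : Fin (n + 1) => lt P y i.succ).prod *
          lt (n := n + 1) P y 0 = (y.getD 0 1)⁻¹ * P * y.getD 0 1 := by
        rw [prod_tail_lt, lt_zero]
        group
      by_cases hP : ∃ h, h ^ p = P
      · obtain ⟨h, rfl⟩ := hP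
        rw [cp_pow hroot, cf_of_length f h y hy, h1 _ ((y.getD 0 1)⁻¹ * h * y.getD 0 1)]
        · congr 1
          funext i
          refine Fin.cases ?_ (fun j => ?_) i
          · rw [Fin.cons_zero, prod_tail_lt, lt_zero]
            group
          · rw [Fin.cons_succ]
            simp [lt]
        · rw [hprod]
          have := conj_pow (a := (y.getD 0 1)⁻¹) (b := h) (i := p)
          rwa [inv_inv] at this
      · rw [cp_neg _ _ _ hP, h2]
        intro h hh
        apply hP
        rw [hprod] at hh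
        refine ⟨y.getD 0 1 * h * (y.getD 0 1)⁻¹, ?_⟩
        rw [conj_pow, hh]
        group
    · rw [cf_of_length_ne f' P y hy]
      by_cases hP : ∃ h, h ^ p = P
      · obtain ⟨h, rfl⟩ := hP
        rw [cp_pow hroot, cf_of_length_ne f h y hy]
      · rw [cp_neg _ _ _ hP]
  · intro g l
    by_cases hl : l.length = n + 2
    · rw [cf_of_length f g l hl, hfr]
    · rw [cf_of_length_ne f g l hl, zero_pow hp.out.ne_zero]

/-- vanishing away from the elements conjugate to one of their `p ^ j`-th powers -/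
theorem dennis_vanish [CharP k p] [IsReduced k] (hroot : ∀ a b : G, a ^ p = b ^ p → a = b) {n : ℕ}
    (z : (Fin (n + 1) → (Matrix r r (MonoidAlgebra k G))ˣ) →₀ ℤ) (hz : barBoundary z = 0)
    (f : (Fin (n + 2) → G) → V) (hf : IsHochschildCocycle f)
    (hvan : ∀ (g : Fin (n + 2) → G) (x : G) (j : ℕ), 1 ≤ j →
      x * (List.ofFn g).prod * x⁻¹ = (List.ofFn g).prod ^ p ^ j → f g = 0) :
    dennis f z = 0 := by
  rw [dennis_eq]
  apply vanish_module hroot (Units.coeHom _) (n + 1) (by omega) (cf f) (fam_cf f hf) _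
    z.support z (fun x => List.ofFn x) (isCyc_of_barBoundary z hz k)
  intro g x j hj hg l
  refine cf_eq_zero f (fun g => ∃ (x : G) (j : ℕ), 1 ≤ j ∧ x * g * x⁻¹ = g ^ p ^ j) ?_ ?_ g
    ⟨x, j, hj, hg⟩ l
  · rintro y g ⟨x, j, hj, h⟩
    refine ⟨y * x * y⁻¹, j, hj, ?_⟩
    rw [conj_pow, ← h]
    group
  · rintro g ⟨x, j, hj, h⟩
    exact hvan g x j hj h

/-- the component of `1` -/
theorem dennis_one [CharP k p] (hroot : ∀ a b : G, a ^ p = b ^ p → a = b) {n : ℕ}
    (z : (Fin (n + 1) → (Matrix r r (MonoidAlgebra k G))ˣ) →₀ ℤ) (hz : barBoundary z = 0)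
    (f : (Fin (n + 2) → G) → k) (hf : IsHochschildCocycle f) (hfr : ∀ g, f g ^ p = f g)
    (hvan : ∀ g : Fin (n + 2) → G, (List.ofFn g).prod ≠ 1 → f g = 0) :
    dennis f z ^ p = dennis f z := by
  symm
  have hprod : ∀ g : Fin (n + 2) → G, (List.ofFn g).prod = 1 ↔
      (List.ofFn fun i : Fin (n + 1) => g i.succ).prod * g 0 = 1 := by
    intro g
    rw [List.ofFn_succ, List.prod_cons]
    exact ⟨fun h => by rw [mul_eq_one_iff_eq_inv] at h ⊢; rw [h, inv_inv],
      fun h => by rw [mul_eq_one_iff_eq_inv] at h ⊢; rw [h, inv_inv]⟩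
  apply dennis_frob hroot z hz f f hf hfr
  · intro g h hh
    by_cases h1 : h = 1
    · subst h1
      rw [one_pow] at hh
      congr 1
      funext i
      refine Fin.cases ?_ (fun j => ?_) i
      · rw [Fin.cons_zero, mul_one]
        exact (inv_eq_of_mul_eq_one_right hh.symm).symm
      · rw [Fin.cons_succ]
    · have h2 : f g = 0 := by
        apply hvan
        rw [Ne, hprod, ← hh]
        intro hc
        apply h1
        apply hroot
        rw [hc, one_pow]
      rw [h2]
      symm
      apply hvan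
      rw [Ne, hprod]
      simp only [Fin.cons_succ, Fin.cons_zero, mul_inv_cancel_left]
      exact h1
  · intro g hg
    apply hvan
    rw [Ne, hprod]
    intro hc
    apply hg 1
    rw [one_pow, hc]

end Pool.Agent.W644.HK
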