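import Pool.Agent.W644.HK.TotalEv

/-!
# The Frobenius congruence for Dennis traces of bar cycles
-/

set_option autoImplicit false
set_option linter.unusedSectionVars false

namespace Pool.Agent.W644.HK

open Finset

universe u v w x y z

variable {k : Type u} [CommRing k] {G : Type v} [Group G] {r : Type w} [Fintype r] [DecidableEq r]
  {V : Type x} [AddCommGroup V] [Module k V]

/-- the pairing of a family of homogeneous cochains with the Dennis trace of a bar simplex -/
noncomputable def SS {𝒢 : Type y} [Group 𝒢] (θ : 𝒢 →* Matrix r r (MonoidAlgebra k G))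
    (c : G → List G → V) (x : List 𝒢) : V := TT (Equiv.refl r) (CF c) (XX θ x)

/-- the tensor power of a representation over a group algebra -/
noncomputable def omc (J : Type*) [Fintype J] [DecidableEq J] {𝒢 : Type y} [Group 𝒢]
    (θ : 𝒢 →* Matrix r r (MonoidAlgebra k G)) :
    𝒢 →* Matrix (J → r) (J → r) (MonoidAlgebra k (J → G)) := (omHom (J := J)).comp θ

lemma omc_apply {J : Type*} [Fintype J] [DecidableEq J] {𝒢 : Type y} [Group 𝒢]
    (θ : 𝒢 →* Matrix r r (MonoidAlgebra k G)) (a : 𝒢) : omc J θ a = om (θ a) := rfl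

lemma XX_om {J : Type*} [Fintype J] [DecidableEq J] {𝒢 : Type y} [Group 𝒢]
    (θ : 𝒢 →* Matrix r r (MonoidAlgebra k G)) (x : List 𝒢) :
    XX (R := J → r) (H := J → G) (omc J θ) x = (XX θ x).map (om (J := J)) := by
  unfold XX
  rw [List.map_map]
  apply List.map_congr_left
  intro a _
  rfl

variable {p : ℕ} [hp : Fact p.Prime]

lemma TT_refl_pow [CharP k p] (c : G → List G → k) (hfr : ∀ g l, c g l ^ p = c g l)
    (Xs : List (Matrix r r (MonoidAlgebra k G))) :
    ∑ s, ∑ l ∈ Lset Xs, mu Xs s s l ^ p * c l.prod (pts 1 l) = TT (Equiv.refl r) (CF c) Xs ^ p := by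
  unfold TT
  rw [sum_pow_char p]
  apply sum_congr rfl
  intro s _
  rw [EE_eq_sum, sum_pow_char p]
  rw [← sum_subset (s₁ := (mu Xs s s).support)]
  · apply sum_congr rfl
    intro l _
    rw [smul_eq_mul, mul_pow, CF, hfr]
    rfl
  · intro l hl
    exact mem_Lset Xs s s l (Finsupp.mem_support_iff.1 hl)
  · intro l _ hl
    rw [Finsupp.notMem_support_iff.1 hl, zero_pow hp.out.ne_zero, zero_mul]

/-- **Frobenius congruence**: if `z = ∑ m_i x_i` is a cycle in the bar complex of `𝒢` and `c` is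
an equivariant family of homogeneous `n`-cocycles with values fixed by the Frobenius, then the
pairing of `z` with the `p`-th root twist of `c` is the `p`-th power of the pairing with `c`. -/
theorem frob_congr [CharP k p] (hroot : ∀ a b : G, a ^ p = b ^ p → a = b)
    {𝒢 : Type y} [Group 𝒢] (θ : 𝒢 →* Matrix r r (MonoidAlgebra k G))
    (n : ℕ) (hn : 1 ≤ n) (c : G → List G → k)
    (hc : ∀ x g l, c (x * g * x⁻¹) (l.map (x * ·)) = c g l)
    (hcoc : ∀ (g : G) (l : List G), l.length = n + 2 → bd (c g) l = 0)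
    (hfr : ∀ g l, c g l ^ p = c g l)
    {ι : Type z} (I : Finset ι) (m : ι → ℤ) (x : ι → List 𝒢) (hx : ∀ i ∈ I, (x i).length = n)
    (hz : ∀ γ : List 𝒢 → k,
      ∑ i ∈ I, m i • ∑ j ∈ range (n + 1), (-1 : ℤ) ^ j • γ (bf j (x i)) = 0) :
    ∑ i ∈ I, m i • SS θ (cp p c) (x i) = (∑ i ∈ I, m i • SS θ c (x i)) ^ p := by
  set θ' := omc (ZMod p) θ with hθ'
  set π : (ZMod p → r) ≃ (ZMod p → r) := pperm (Equiv.addRight (1 : ZMod p)) with hπ
  have h1 : ∑ i ∈ I, m i • TT π (CF fun Q => bd (PE (p := p) c e0 ev Q)) (XX θ' (x i)) = 0 := by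
    rw [← hz fun y => TT π (CF (PE (p := p) c e0 ev)) (XX θ' y)]
    apply sum_congr rfl
    intro i hi
    rw [TT_bd θ' π (tau G p) (fun a s s' φ => LL_om_perm _ _ _ _ _) _
      (fun x Q l => PE_conj hroot c hc e0 ev e0_conj ev_conj x Q l) (x i) (by rw [hx i hi]; exact hn),
      hx i hi]
  have h2 : ∀ i ∈ I, TT π (CF fun Q => bd (PE (p := p) c e0 ev Q)) (XX θ' (x i)) =
      TT π (CF (CE (p := p) c ev)) (XX θ' (x i)) - TT π (CF (CE (p := p) c e0)) (XX θ' (x i)) := by
    intro i hi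
    rw [← TT_sub_fun]
    apply TT_congr
    intro l hl
    rw [length_XX, hx i hi] at hl
    rw [CF, bd_PE hroot c n hcoc e0 ev _ _ (by rw [length_pts, hl])]
    rfl
  have h3 : ∑ i ∈ I, m i • TT π (CF (CE (p := p) c ev)) (XX θ' (x i)) =
      ∑ i ∈ I, m i • TT π (CF (CE (p := p) c e0)) (XX θ' (x i)) := by
    rw [← sub_eq_zero, ← sum_sub_distrib, ← h1]
    apply sum_congr rfl
    intro i hi
    rw [h2 i hi, smul_sub]
  have h4 : ∀ i ∈ I, TT π (CF (CE (p := p) c e0)) (XX θ' (x i)) = SS θ (cp p c) (x i) := by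
    intro i _
    rw [hθ', XX_om, hπ, TT_e0 c (XX θ (x i)) (prod_XX θ (x i))]
    rfl
  have h5 : ∀ i ∈ I, TT π (CF (CE (p := p) c ev)) (XX θ' (x i)) = SS θ c (x i) ^ p := by
    intro i _
    rw [hθ', XX_om, hπ, TT_ev hroot c hc, TT_refl_pow c hfr]
    rfl
  rw [sum_congr rfl fun i hi => by rw [← h4 i hi], ← h3, sum_pow_char p]
  apply sum_congr rfl
  intro i hi
  rw [h5 i hi, zsmul_eq_mul, zsmul_eq_mul, mul_pow]
  congr 1
  have := map_intCast (frobenius k p) (m i)
  rw [frobenius_def] at this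
  exact this.symm

end Pool.Agent.W644.HK
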