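import Pool.Agent.W644.HK.Frob

/-!
# The two cochains on necklaces
-/

set_option autoImplicit false
set_option linter.unusedSectionVars false

namespace Pool.Agent.W644.HK

open Finset

universe u v w x y

variable {G : Type v} [Group G] {p : ℕ} [NeZero p] {V : Type x} [AddCommGroup V]

/-- the cochain given by a vertex map `e` and the family `c` -/
noncomputable def CE (c : G → List G → V) (e : G → (ZMod p → G) → (ZMod p → G) → G)
    (Q : ZMod p → G) (Ys : List (ZMod p → G)) : V :=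
  open Classical in
  if hx : ∃ x, x ^ p = qq Q p then c hx.choose (Ys.map (e hx.choose Q)) else 0

/-- the prism cochain between two vertex maps -/
noncomputable def PE (c : G → List G → V) (e0 e1 : G → (ZMod p → G) → (ZMod p → G) → G)
    (Q : ZMod p → G) (Ys : List (ZMod p → G)) : V :=
  open Classical in
  if hx : ∃ x, x ^ p = qq Q p then prism (e0 hx.choose Q) (e1 hx.choose Q) (c hx.choose) Ys else 0

lemma CE_pos (hroot : ∀ a b : G, a ^ p = b ^ p → a = b) (c : G → List G → V)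
    (e : G → (ZMod p → G) → (ZMod p → G) → G)
    (Q : ZMod p → G) (Ys : List (ZMod p → G)) (h : G) (hh : h ^ p = qq Q p) :
    CE c e Q Ys = c h (Ys.map (e h Q)) := by
  have hx : ∃ x, x ^ p = qq Q p := ⟨h, hh⟩
  rw [CE, dif_pos hx]
  have : hx.choose = h := hroot _ _ (by rw [hx.choose_spec, hh])
  rw [this]

lemma CE_neg (c : G → List G → V) (e : G → (ZMod p → G) → (ZMod p → G) → G)
    (Q : ZMod p → G) (Ys : List (ZMod p → G)) (hh : ¬ ∃ x, x ^ p = qq Q p) :
    CE c e Q Ys = 0 := by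
  rw [CE, dif_neg hh]

lemma PE_pos (hroot : ∀ a b : G, a ^ p = b ^ p → a = b) (c : G → List G → V)
    (e0 e1 : G → (ZMod p → G) → (ZMod p → G) → G)
    (Q : ZMod p → G) (Ys : List (ZMod p → G)) (h : G) (hh : h ^ p = qq Q p) :
    PE c e0 e1 Q Ys = prism (e0 h Q) (e1 h Q) (c h) Ys := by
  have hx : ∃ x, x ^ p = qq Q p := ⟨h, hh⟩
  rw [PE, dif_pos hx]
  have : hx.choose = h := hroot _ _ (by rw [hx.choose_spec, hh])
  rw [this]

lemma PE_neg (c : G → List G → V) (e0 e1 : G → (ZMod p → G) → (ZMod p → G) → G)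
    (Q : ZMod p → G) (Ys : List (ZMod p → G)) (hh : ¬ ∃ x, x ^ p = qq Q p) :
    PE c e0 e1 Q Ys = 0 := by
  rw [PE, dif_neg hh]

lemma qq_conj_p (x Q : ZMod p → G) :
    qq (x * Q * (tau G p x)⁻¹) p = x 0 * qq Q p * (x 0)⁻¹ := by
  rw [qq_conj]
  simp

lemma root_conj_iff (x Q : ZMod p → G) :
    (∃ z, z ^ p = qq (x * Q * (tau G p x)⁻¹) p) ↔ ∃ z, z ^ p = qq Q p := by
  rw [qq_conj_p]
  constructor
  · rintro ⟨z, hz⟩
    refine ⟨(x 0)⁻¹ * z * x 0, ?_⟩
    have := conj_pow (a := (x 0)⁻¹) (b := z) (i := p)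
    rw [inv_inv] at this
    rw [this, hz]
    group
  · rintro ⟨z, hz⟩
    exact ⟨x 0 * z * (x 0)⁻¹, by rw [conj_pow, hz]⟩

lemma PE_conj (hroot : ∀ a b : G, a ^ p = b ^ p → a = b) (c : G → List G → V)
    (hc : ∀ x g l, c (x * g * x⁻¹) (l.map (x * ·)) = c g l)
    (e0 e1 : G → (ZMod p → G) → (ZMod p → G) → G)
    (h0 : ∀ h x Q Y, e0 (x 0 * h * (x 0)⁻¹) (x * Q * (tau G p x)⁻¹) (x * Y) = x 0 * e0 h Q Y)
    (h1 : ∀ h x Q Y, e1 (x 0 * h * (x 0)⁻¹) (x * Q * (tau G p x)⁻¹) (x * Y) = x 0 * e1 h Q Y)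
    (x Q : ZMod p → G) (l : List (ZMod p → G)) :
    PE c e0 e1 (x * Q * (tau G p x)⁻¹) (l.map (x * ·)) = PE c e0 e1 Q l := by
  by_cases hx : ∃ z, z ^ p = qq Q p
  · obtain ⟨h, hh⟩ := hx
    rw [PE_pos hroot c e0 e1 Q l h hh, PE_pos hroot c e0 e1 _ _ (x 0 * h * (x 0)⁻¹)
      (by rw [conj_pow, hh, qq_conj_p])]
    exact prism_congr _ _ _ _ (x * ·) (x 0 * ·) (fun a => h0 h x Q a) (fun a => h1 h x Q a) _ _
      (fun l => hc (x 0) h l) l
  · rw [PE_neg _ _ _ _ _ hx, PE_neg]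
    rwa [root_conj_iff]

lemma prism_eq_zero {α β : Type*} (e0 e1 : α → β) (f : List β → V) (l : List α)
    (h : ∀ l' : List β, l'.length = l.length + 1 → f l' = 0) : prism e0 e1 f l = 0 := by
  induction l generalizing f with
  | nil => simp
  | cons a l ih =>
    rw [prism_cons, h _ (by simp), ih (fun l' => f (e0 a :: l'))
      (fun l' hl' => h _ (by simp [hl'])), sub_zero]

lemma bd_PE (hroot : ∀ a b : G, a ^ p = b ^ p → a = b) (c : G → List G → V) (n : ℕ)
    (hcoc : ∀ (g : G) (l : List G), l.length = n + 2 → bd (c g) l = 0)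
    (e0 e1 : G → (ZMod p → G) → (ZMod p → G) → G)
    (Q : ZMod p → G) (l : List (ZMod p → G)) (hl : l.length = n + 1) :
    bd (PE c e0 e1 Q) l = CE c e1 Q l - CE c e0 Q l := by
  by_cases hx : ∃ z, z ^ p = qq Q p
  · obtain ⟨h, hh⟩ := hx
    rw [CE_pos hroot c e1 Q l h hh, CE_pos hroot c e0 Q l h hh, ← prism_identity,
      prism_eq_zero _ _ (bd (c h)) l (fun l' hl' => hcoc h l' (by omega)), add_zero]
    congr 1
    funext l'
    exact PE_pos hroot c e0 e1 Q l' h hh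
  · rw [CE_neg _ _ _ _ hx, CE_neg _ _ _ _ hx, bd_eq_sum]
    simp [PE_neg _ _ _ _ _ hx]

/-- the vertex map reading off the block `0` -/
def e0 (_ : G) (_ Y : ZMod p → G) : G := Y 0

lemma e0_conj (h : G) (x Q Y : ZMod p → G) :
    e0 (x 0 * h * (x 0)⁻¹) (x * Q * (tau G p x)⁻¹) (x * Y) = x 0 * e0 h Q Y := rfl

/-- the `p`-th root twist of a family -/
noncomputable def cp (p : ℕ) (c : G → List G → V) (P : G) (l : List G) : V :=
  open Classical in if hx : ∃ x, x ^ p = P then c hx.choose l else 0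

lemma cp_pow (hroot : ∀ a b : G, a ^ p = b ^ p → a = b) (c : G → List G → V) (h : G)
    (l : List G) : cp p c (h ^ p) l = c h l := by
  have hx : ∃ x, x ^ p = h ^ p := ⟨h, rfl⟩
  rw [cp, dif_pos hx, hroot _ _ hx.choose_spec]

lemma cp_neg (c : G → List G → V) (P : G) (l : List G) (h : ¬ ∃ x, x ^ p = P) :
    cp p c P l = 0 := by
  rw [cp, dif_neg h]

lemma CE_e0 (c : G → List G → V) (Q : ZMod p → G) (l : List (ZMod p → G)) :
    CE c e0 Q l = cp p c (qq Q p) (l.map fun Y => Y 0) := rfl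

/-- rotation invariance -/
lemma CE_ev_tau (hroot : ∀ a b : G, a ^ p = b ^ p → a = b) (c : G → List G → V)
    (hc : ∀ x g l, c (x * g * x⁻¹) (l.map (x * ·)) = c g l)
    (Q : ZMod p → G) (l : List (ZMod p → G)) :
    CE c ev (tau G p Q) (l.map (tau G p)) = CE c ev Q l := by
  by_cases hx : ∃ z, z ^ p = qq Q p
  · obtain ⟨h, hh⟩ := hx
    have hconj := conj_pow (a := (Q 0)⁻¹) (b := h) (i := p)
    rw [inv_inv] at hconj
    rw [CE_pos hroot c ev Q l h hh, CE_pos hroot c ev _ _ ((Q 0)⁻¹ * h * Q 0)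
      (by rw [hconj, hh, qq_tau_p])]
    have h1 : (l.map (tau G p)).map (ev ((Q 0)⁻¹ * h * Q 0) (tau G p Q)) =
        ((l.map (ev h Q)).map (h * ·)).map ((Q 0)⁻¹ * ·) := by
      rw [List.map_map, List.map_map, List.map_map]
      apply List.map_congr_left
      intro Y _
      exact ev_tau hroot h Q Y hh
    rw [h1]
    have h2 := hc ((Q 0)⁻¹) h ((l.map (ev h Q)).map (h * ·))
    rw [inv_inv] at h2
    rw [h2]
    have h3 := hc h h (l.map (ev h Q))
    rwa [mul_inv_cancel_right] at h3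
  · rw [CE_neg _ _ _ _ hx, CE_neg]
    rintro ⟨z, hz⟩
    apply hx
    refine ⟨Q 0 * z * (Q 0)⁻¹, ?_⟩
    rw [conj_pow, hz, qq_tau_p]
    group

lemma CE_ev_const (hroot : ∀ a b : G, a ^ p = b ^ p → a = b) (c : G → List G → V)
    (g : G) (l : List G) :
    CE c ev (fun _ : ZMod p => g) (l.map fun y => fun _ => y) = c g l := by
  rw [CE_pos hroot c ev _ _ g (qq_const g p).symm, List.map_map]
  have : (ev g fun _ : ZMod p => g) ∘ (fun y => fun _ => y) = id := by
    funext y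
    exact ev_const g y
  rw [this, List.map_id]

end Pool.Agent.W644.HK
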