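import Pool.Agent.W644.HK.Measure

/-!
# The closed path functional turns homogeneous coboundaries into bar coboundaries
-/

set_option autoImplicit false
set_option linter.unusedSectionVars false

namespace Pool.Agent.W644.HK

open Finset

universe u v w x y

variable {k : Type u} [CommRing k] {H : Type v} [Group H] {R : Type w} [Fintype R] [DecidableEq R]
  {V : Type x} [AddCommGroup V] [Module k V]

/-- evaluation of a homogeneous cochain on a word of letters -/
def CF (C : H → List H → V) (l : List H) : V := C l.prod (pts 1 l)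

lemma face_zero (τ : H →* H) (C : H → List H → V)
    (hC : ∀ x Q l, C (x * Q * (τ x)⁻¹) (l.map (x * ·)) = C Q l) (l : List H)
    (hl : 2 ≤ l.length) :
    C l.prod ((pts 1 l).eraseIdx 0) = CF C (mg (l.length - 2) (rotl τ l)) := by
  match l, hl with
  | [], hl => simp at hl
  | [a], hl => simp at hl
  | h :: b :: l, _ =>
    obtain ⟨l'', c, hc⟩ : ∃ l'' c, b :: l = l'' ++ [c] :=
      ⟨(b :: l).dropLast, (b :: l).getLast (by simp), (List.dropLast_append_getLast (by simp)).symm⟩
    rw [hc]
    have hlen : (h :: (l'' ++ [c])).length - 2 = l''.length := by simp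
    rw [hlen, rotl, List.append_assoc, List.singleton_append, mg_append_last _ _ _ _ rfl, CF,
      pts_append, pts_cons, List.eraseIdx_cons_zero]
    refine Eq.trans ?_ (hC h _ _)
    congr 1
    · simp [mul_assoc]
    · rw [one_mul, pts_append]
      nth_rewrite 1 [← mul_one h]
      rw [pts_mul]
      simp

/-- bar faces of a list of length `n`, `0 ≤ i ≤ n` -/
def bf {M : Type*} [Mul M] : ℕ → List M → List M
  | 0, l => l.tail
  | i + 1, l => if i + 1 < l.length then mg i l else l.dropLast

/-- the matrices attached to a bar simplex, the last one closes the simplex -/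
noncomputable def XX {𝒢 : Type y} [Group 𝒢] (θ : 𝒢 →* Matrix R R (MonoidAlgebra k H)) (x : List 𝒢) :
    List (Matrix R R (MonoidAlgebra k H)) := (x ++ [x.prod⁻¹]).map θ

@[simp] lemma length_XX {𝒢 : Type y} [Group 𝒢] (θ : 𝒢 →* Matrix R R (MonoidAlgebra k H))
    (x : List 𝒢) : (XX θ x).length = x.length + 1 := by simp [XX]

lemma prod_XX {𝒢 : Type y} [Group 𝒢] (θ : 𝒢 →* Matrix R R (MonoidAlgebra k H))
    (x : List 𝒢) : (XX θ x).prod = 1 := by
  rw [XX, ← map_list_prod, List.prod_append]
  simp

lemma mg_append {M : Type*} [Mul M] (i : ℕ) (l l' : List M) (h : i + 1 < l.length) :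
    mg i (l ++ l') = mg i l ++ l' := by
  induction i generalizing l with
  | zero =>
    match l, h with
    | [], h => simp at h
    | [a], h => simp at h
    | a :: b :: l, h => simp
  | succ i ih =>
    match l, h with
    | [], h => simp at h
    | a :: l, h =>
      rw [List.cons_append, mg_succ_cons, mg_succ_cons, List.cons_append, ih]
      simpa using h

lemma XX_bf_succ {𝒢 : Type y} [Group 𝒢] (θ : 𝒢 →* Matrix R R (MonoidAlgebra k H))
    (x : List 𝒢) (j : ℕ) (hj : j < x.length) : mg j (XX θ x) = XX θ (bf (j + 1) x) := by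
  rw [XX, ← map_mg _ (fun a b => θ.map_mul a b), bf]
  split_ifs with h
  · rw [mg_append _ _ _ h, XX, prod_mg]
  · have hne : x ≠ [] := by
      rintro rfl
      simp at hj
    obtain ⟨y, a, hy⟩ : ∃ y a, x = y ++ [a] :=
      ⟨x.dropLast, x.getLast hne, (List.dropLast_append_getLast hne).symm⟩
    subst hy
    have hj' : j = y.length := by
      simp at h hj
      omega
    subst hj'
    rw [List.append_assoc, List.singleton_append, mg_append_last _ _ _ _ rfl, XX]
    simp

lemma XX_bf_zero {𝒢 : Type y} [Group 𝒢] (θ : 𝒢 →* Matrix R R (MonoidAlgebra k H))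
    (a : 𝒢) (x : List 𝒢) :
    mg x.length (((x ++ [(a :: x).prod⁻¹]).map θ) ++ [θ a]) = XX θ (bf 0 (a :: x)) := by
  have h1 : ((x ++ [(a :: x).prod⁻¹]).map θ) ++ [θ a] =
      (x ++ [(a :: x).prod⁻¹, a]).map θ := by simp
  rw [h1, ← map_mg _ (fun a b => θ.map_mul a b), mg_append_last _ _ _ _ rfl, XX, bf]
  simp

lemma TT_bd {𝒢 : Type y} [Group 𝒢] (θ : 𝒢 →* Matrix R R (MonoidAlgebra k H)) (π : R ≃ R)
    (τ : H →* H)
    (hθ : ∀ a s s', ∀ φ : H → V, LL φ (θ a (π s) (π s')) = LL (fun h => φ (τ h)) (θ a s s'))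
    (C : H → List H → V) (hC : ∀ x Q l, C (x * Q * (τ x)⁻¹) (l.map (x * ·)) = C Q l)
    (x : List 𝒢) (hx : 1 ≤ x.length) :
    TT π (CF fun Q => bd (C Q)) (XX θ x) =
      ∑ j ∈ range (x.length + 1), (-1 : ℤ) ^ j • TT π (CF C) (XX θ (bf j x)) := by
  have h1 : TT π (CF fun Q => bd (C Q)) (XX θ x) =
      TT π (fun l => ∑ j ∈ range (x.length + 1),
        (-1 : ℤ) ^ j • C l.prod ((pts 1 l).eraseIdx j)) (XX θ x) := by
    apply TT_congr
    intro l hl
    rw [CF, bd_eq_sum, length_pts, hl, length_XX]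
  rw [h1, TT_sum_fun]
  apply sum_congr rfl
  intro j hj
  rw [TT_zsmul_fun]
  congr 1
  rw [mem_range] at hj
  match j, hj with
  | 0, _ =>
    match x, hx with
    | a :: x, _ =>
      have h2 : XX θ (a :: x) = θ a :: (x ++ [(a :: x).prod⁻¹]).map θ := by simp [XX]
      rw [← XX_bf_zero, TT_mg _ _ _ _ (by simp), TT_rotl π τ _ _ (hθ a), ← h2]
      apply TT_congr
      intro l hl
      rw [length_XX, List.length_cons] at hl
      rw [face_zero τ C hC l (by omega), hl]
      rfl
  | j + 1, hj =>
    rw [← XX_bf_succ θ x j (by omega), TT_mg _ _ _ _ (by rw [length_XX]; omega)]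
    apply TT_congr
    intro l hl
    rw [length_XX] at hl
    rw [CF, prod_mg, pts_mg _ _ _ (by omega)]

end Pool.Agent.W644.HK
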