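import Pool.Agent.W644.HK.Neck

/-!
# Sums over sets with a cyclic symmetry of prime order, in characteristic `p`
-/

set_option autoImplicit false
set_option linter.unusedSectionVars false

namespace Pool.Agent.W644.HK

open Finset

universe u v w x y

lemma orbit_sum {α : Type*} {k : Type*} [CommRing k] (p : ℕ) [hp : Fact p.Prime] [CharP k p]
    [DecidableEq α] (f : α → α) (x : α) (hf : f^[p] x = x) (hx : f x ≠ x) (N : α → k)
    (hN : ∀ i, N (f (f^[i] x)) = N (f^[i] x)) :
    ∑ y ∈ (range p).image (fun i => f^[i] x), N y = 0 := by
  have hper : Function.minimalPeriod f x = p := by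
    have h1 : Function.IsPeriodicPt f p x := hf
    rcases (Nat.dvd_prime hp.out).1 h1.minimalPeriod_dvd with h2 | h2
    · exact absurd (Function.minimalPeriod_eq_one_iff_isFixedPt.1 h2) hx
    · exact h2
  rw [sum_image]
  · have h2 : ∀ i, N (f^[i] x) = N x := by
      intro i
      induction i with
      | zero => rfl
      | succ i ih => rw [Function.iterate_succ_apply', hN, ih]
    simp only [h2, sum_const, card_range, nsmul_eq_mul, CharP.cast_eq_zero, zero_mul]
  · intro i hi j hj hij
    simp only [coe_range, Set.mem_Iio] at hi hj
    rw [← hper] at hi hj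
    exact Function.iterate_injOn_Iio_minimalPeriod hi hj hij

lemma frob_sum {α : Type*} {k : Type*} [CommRing k] (p : ℕ) [hp : Fact p.Prime] [CharP k p]
    [DecidableEq α] (f : α → α) (N : α → k) :
    ∀ (n : ℕ) (s : Finset α), s.card = n → (∀ x ∈ s, f x ∈ s) → (∀ x ∈ s, f^[p] x = x) →
      (∀ x ∈ s, N (f x) = N x) → ∑ x ∈ s, N x = ∑ x ∈ s with f x = x, N x := by
  intro n
  induction n using Nat.strong_induction_on with
  | _ n ih =>
    intro s hn hs hf hN
    by_cases h : ∀ x ∈ s, f x = x
    · rw [filter_true_of_mem h]
    · push Not at h
      obtain ⟨x, hx, hfx⟩ := h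
      have hmem : ∀ i, f^[i] x ∈ s := by
        intro i
        induction i with
        | zero => exact hx
        | succ i ih => rw [Function.iterate_succ_apply']; exact hs _ ih
      set O := (range p).image (fun i => f^[i] x) with hO
      have hOs : O ⊆ s := by
        intro y hy
        obtain ⟨i, _, rfl⟩ := mem_image.1 hy
        exact hmem i
      have hOsum : ∑ y ∈ O, N y = 0 :=
        orbit_sum p f x (hf x hx) hfx N (fun i => hN _ (hmem i))
      have hxO : x ∈ O := mem_image.2 ⟨0, mem_range.2 hp.out.pos, rfl⟩
      have hcl : ∀ y ∈ s \ O, f y ∈ s \ O := by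
        intro y hy
        rw [mem_sdiff] at hy ⊢
        refine ⟨hs y hy.1, fun hc => hy.2 ?_⟩
        obtain ⟨i, _, hi⟩ := mem_image.1 hc
        have h1 : y = f^[p - 1 + i] x := by
          have h2 := hf y hy.1
          have h3 : p = (p - 1) + 1 := (Nat.sub_add_cancel hp.out.one_lt.le).symm
          rw [h3, Function.iterate_succ_apply, ← hi] at h2
          rw [Function.iterate_add_apply]
          exact h2.symm
        rw [hO, mem_image]
        refine ⟨(p - 1 + i) % p, mem_range.2 (Nat.mod_lt _ hp.out.pos), ?_⟩
        rw [h1]
        have hper : Function.IsPeriodicPt f p x := hf x hx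
        exact hper.iterate_mod_apply _
      have h1 := ih (s \ O).card (by
        rw [← hn]
        exact card_lt_card ⟨sdiff_subset, fun hc => (mem_sdiff.1 (hc hx)).2 hxO⟩) (s \ O) rfl hcl
        (fun y hy => hf y (mem_sdiff.1 hy).1) (fun y hy => hN y (mem_sdiff.1 hy).1)
      have h2 : (s \ O).filter (fun x => f x = x) = s.filter (fun x => f x = x) := by
        ext y
        simp only [mem_filter, mem_sdiff, and_congr_left_iff, and_iff_left_iff_imp]
        intro hy hys hc
        obtain ⟨i, _, rfl⟩ := mem_image.1 hc
        apply hfx
        have hper : Function.IsPeriodicPt f p x := hf x hx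
        have h3 : ∀ m, f^[m] (f^[i] x) = f^[i] x := by
          intro m
          induction m with
          | zero => rfl
          | succ m ih => rw [Function.iterate_succ_apply', ih, hy]
        have h4 : x = f^[i] x := by
          have h5 := h3 (i * (p - 1))
          rw [← Function.iterate_add_apply] at h5
          have h6 : i * (p - 1) + i = i * p := by
            have := hp.out.one_lt.le
            obtain ⟨q, hq⟩ : ∃ q, p = q + 1 := ⟨p - 1, by omega⟩
            rw [hq]
            simp
            ring
          rw [h6] at h5
          have h7 : f^[i * p] x = x := (hper.const_mul i)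
          rw [h7] at h5
          exact h5
        rw [h4]
        exact hy
      rw [← h2, ← h1, ← sum_sdiff hOs, hOsum, add_zero]

end Pool.Agent.W644.HK
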