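import Pool.Agent.W644.HK.Core

/-!
# Iterating the Frobenius congruence: vanishing of the Dennis trace
-/

set_option autoImplicit false
set_option linter.unusedSectionVars false

namespace Pool.Agent.W644.HK

open Finset

universe u v w x y z

section fam

variable {G : Type v} [Group G] {V : Type x} [AddCommGroup V]

/-- equivariant families of homogeneous `n`-cocycles -/
structure Fam (n : ℕ) (c : G → List G → V) : Prop where
  equiv : ∀ x g l, c (x * g * x⁻¹) (l.map (x * ·)) = c g l
  coc : ∀ (g : G) (l : List G), l.length = n + 2 → bd (c g) l = 0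

lemma bd_hom {α : Type*} {W : Type*} [AddCommGroup W] (φ : V →+ W) (c : List α → V) (l : List α) :
    bd (fun l => φ (c l)) l = φ (bd c l) := by
  induction l generalizing c with
  | nil => simp
  | cons a l ih =>
    rw [bd_cons, bd_cons, map_sub, ih fun l' => c (a :: l')]

lemma bd_zero {α : Type*} (l : List α) : bd (fun _ => (0 : V)) l = 0 := by
  rw [bd_eq_sum]
  simp

lemma Fam.hom {n : ℕ} {c : G → List G → V} (hc : Fam n c) {W : Type*} [AddCommGroup W]
    (φ : V →+ W) : Fam n fun g l => φ (c g l) where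
  equiv x g l := by rw [hc.equiv]
  coc g l hl := by rw [bd_hom, hc.coc g l hl, map_zero]

lemma Fam.cp {n p : ℕ} [NeZero p] (hroot : ∀ a b : G, a ^ p = b ^ p → a = b)
    {c : G → List G → V} (hc : Fam n c) : Fam n (cp p c) where
  equiv x P l := by
    by_cases hP : ∃ h, h ^ p = P
    · obtain ⟨h, rfl⟩ := hP
      rw [← conj_pow, cp_pow hroot, cp_pow hroot, hc.equiv]
    · rw [cp_neg _ _ _ hP, cp_neg]
      rintro ⟨h, hh⟩
      apply hP
      refine ⟨x⁻¹ * h * x, ?_⟩
      have := conj_pow (a := x⁻¹) (b := h) (i := p)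
      rw [inv_inv] at this
      rw [this, hh]
      group
  coc P l hl := by
    by_cases hP : ∃ h, h ^ p = P
    · obtain ⟨h, rfl⟩ := hP
      have : HK.cp p c (h ^ p) = c h := funext fun l => cp_pow hroot c h l
      rw [this, hc.coc h l hl]
    · have : HK.cp p c P = fun _ => 0 := funext fun l => cp_neg _ _ _ hP
      rw [this, bd_zero]

lemma Fam.iter {n p : ℕ} [NeZero p] (hroot : ∀ a b : G, a ^ p = b ^ p → a = b)
    {c : G → List G → V} (hc : Fam n c) (j : ℕ) : Fam n ((HK.cp p)^[j] c) := by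
  induction j with
  | zero => exact hc
  | succ j ih =>
    rw [Function.iterate_succ_apply']
    exact ih.cp hroot

open Classical in
lemma Fam.restrict {n : ℕ} {c : G → List G → V} (hc : Fam n c) (κ : ConjClasses G) :
    Fam n fun g l => if ConjClasses.mk g = κ then c g l else 0 where
  equiv x g l := by
    have : ConjClasses.mk (x * g * x⁻¹) = ConjClasses.mk g :=
      ConjClasses.mk_eq_mk_iff_isConj.2 (isConj_iff.2 ⟨x⁻¹, by group⟩)
    rw [this, hc.equiv]
  coc g l hl := by
    by_cases h : ConjClasses.mk g = κ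
    · simp only [h, if_true]
      exact hc.coc g l hl
    · simp only [h, if_false]
      exact bd_zero l

lemma exists_of_iter {p : ℕ} [NeZero p] (hroot : ∀ a b : G, a ^ p = b ^ p → a = b)
    (c : G → List G → V) (j : ℕ) (P : G) (l : List G) (h : (HK.cp p)^[j] c P l ≠ 0) :
    ∃ g, g ^ p ^ j = P ∧ c g l ≠ 0 := by
  induction j generalizing P with
  | zero => exact ⟨P, by simp, h⟩
  | succ j ih =>
    rw [Function.iterate_succ_apply'] at h
    by_cases hP : ∃ h, h ^ p = P
    · obtain ⟨q, rfl⟩ := hP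
      rw [cp_pow hroot] at h
      obtain ⟨g, hg, hcg⟩ := ih q h
      refine ⟨g, ?_, hcg⟩
      rw [pow_succ, pow_mul, hg]
    · exact absurd (cp_neg _ _ _ hP) h

lemma iter_frob {k : Type*} [CommRing k] {p : ℕ} [hp : Fact p.Prime]
    (c : G → List G → k) (hfr : ∀ g l, c g l ^ p = c g l) (j : ℕ) (g : G) (l : List G) :
    (HK.cp p)^[j] c g l ^ p = (HK.cp p)^[j] c g l := by
  induction j generalizing g l with
  | zero => exact hfr g l
  | succ j ih =>
    rw [Function.iterate_succ_apply']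
    unfold HK.cp
    split_ifs with h
    · exact ih _ _
    · exact zero_pow hp.out.ne_zero

end fam

section van

variable {k : Type u} [CommRing k] {G : Type v} [Group G] {r : Type w} [Fintype r] [DecidableEq r]
  {V : Type x} [AddCommGroup V] [Module k V]

/-- the conditions on a formal sum of bar simplices to be a cycle, tested on functions -/
def IsCyc {𝒢 : Type y} [Group 𝒢] (A : Type u) [AddCommGroup A] (n : ℕ) {ι : Type z} (I : Finset ι)
    (m : ι → ℤ) (x : ι → List 𝒢) : Prop :=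
  (∀ i ∈ I, (x i).length = n) ∧
    ∀ γ : List 𝒢 → A, ∑ i ∈ I, m i • ∑ j ∈ range (n + 1), (-1 : ℤ) ^ j • γ (bf j (x i)) = 0

lemma SS_congr {𝒢 : Type y} [Group 𝒢] (θ : 𝒢 →* Matrix r r (MonoidAlgebra k G))
    (c c' : G → List G → V) (x : List 𝒢)
    (h : ∀ l ∈ Lset (XX θ x), c l.prod (pts 1 l) = c' l.prod (pts 1 l)) : SS θ c x = SS θ c' x := by
  unfold SS TT
  apply sum_congr rfl
  intro s _
  rw [EE_eq_sum, EE_eq_sum]
  apply sum_congr rfl
  intro l hl
  rw [CF, CF, h l (mem_Lset _ _ _ _ (Finsupp.mem_support_iff.1 hl))]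

lemma SS_hom {𝒢 : Type y} [Group 𝒢] (θ : 𝒢 →* Matrix r r (MonoidAlgebra k G))
    (c : G → List G → V) {W : Type*} [AddCommGroup W] [Module k W] (φ : V →ₗ[k] W) (x : List 𝒢) :
    SS θ (fun g l => φ (c g l)) x = φ (SS θ c x) := by
  unfold SS TT
  rw [map_sum]
  apply sum_congr rfl
  intro s _
  rw [EE_eq_sum, EE_eq_sum, map_sum]
  apply sum_congr rfl
  intro l _
  rw [map_smul]
  rfl

lemma SS_sum {𝒢 : Type y} [Group 𝒢] (θ : 𝒢 →* Matrix r r (MonoidAlgebra k G))
    {κ : Type*} (K : Finset κ) (c : κ → G → List G → V) (x : List 𝒢) :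
    SS θ (fun g l => ∑ i ∈ K, c i g l) x = ∑ i ∈ K, SS θ (c i) x := by
  unfold SS
  rw [← TT_sum_fun]
  rfl

variable {p : ℕ} [hp : Fact p.Prime]

lemma frob_iter [CharP k p] (hroot : ∀ a b : G, a ^ p = b ^ p → a = b)
    {𝒢 : Type y} [Group 𝒢] (θ : 𝒢 →* Matrix r r (MonoidAlgebra k G))
    (n : ℕ) (hn : 1 ≤ n) (c : G → List G → k) (hc : Fam n c)
    (hfr : ∀ g l, c g l ^ p = c g l)
    {ι : Type z} (I : Finset ι) (m : ι → ℤ) (x : ι → List 𝒢) (hz : IsCyc k n I m x) (j : ℕ) :
    ∑ i ∈ I, m i • SS θ ((cp p)^[j] c) (x i) = (∑ i ∈ I, m i • SS θ c (x i)) ^ p ^ j := by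
  induction j with
  | zero => simp
  | succ j ih =>
    rw [Function.iterate_succ_apply', frob_congr hroot θ n hn _ (hc.iter hroot j).equiv
      (hc.iter hroot j).coc (iter_frob c hfr j) I m x hz.1 hz.2, ih, ← pow_mul, ← pow_succ]

/-- vanishing, for values fixed by the Frobenius -/
theorem vanish_frob [CharP k p] [IsReduced k] (hroot : ∀ a b : G, a ^ p = b ^ p → a = b)
    {𝒢 : Type y} [Group 𝒢] (θ : 𝒢 →* Matrix r r (MonoidAlgebra k G))
    (n : ℕ) (hn : 1 ≤ n) (c : G → List G → k) (hc : Fam n c)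
    (hfr : ∀ g l, c g l ^ p = c g l)
    (hvan : ∀ (g x : G) (j : ℕ), 1 ≤ j → x * g * x⁻¹ = g ^ p ^ j → ∀ l, c g l = 0)
    {ι : Type z} (I : Finset ι) (m : ι → ℤ) (x : ι → List 𝒢) (hz : IsCyc k n I m x) :
    ∑ i ∈ I, m i • SS θ c (x i) = 0 := by
  classical
  -- the products of the words in the support
  set S : Finset G := I.biUnion fun i => (Lset (XX θ (x i))).image List.prod with hS
  set K : Finset (ConjClasses G) := S.image ConjClasses.mk with hK
  have h1 : ∀ i ∈ I, SS θ c (x i) =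
      ∑ κ ∈ K, SS θ (fun g l => if ConjClasses.mk g = κ then c g l else 0) (x i) := by
    intro i hi
    rw [← SS_sum]
    apply SS_congr
    intro l hl
    rw [sum_ite_eq, if_pos]
    rw [hK, mem_image]
    exact ⟨l.prod, mem_biUnion.2 ⟨i, hi, mem_image_of_mem _ hl⟩, rfl⟩
  rw [sum_congr rfl fun i hi => by rw [h1 i hi, smul_sum], sum_comm]
  apply sum_eq_zero
  intro κ _
  set cκ : G → List G → k := fun g l => if ConjClasses.mk g = κ then c g l else 0 with hcκ
  have hfam : Fam n cκ := hc.restrict κ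
  have hfrκ : ∀ g l, cκ g l ^ p = cκ g l := by
    intro g l
    simp only [hcκ]
    split_ifs
    · exact hfr g l
    · exact zero_pow hp.out.ne_zero
  -- some iterate vanishes on the support
  by_contra hne
  have hall : ∀ j : ℕ, ∃ P ∈ S, ∃ g, g ^ p ^ j = P ∧ ∃ l, cκ g l ≠ 0 := by
    intro j
    by_contra hcon
    push Not at hcon
    apply hne
    have h2 := frob_iter hroot θ n hn cκ hfam hfrκ I m x hz j
    have h3 : ∑ i ∈ I, m i • SS θ ((cp p)^[j] cκ) (x i) = 0 := by
      apply sum_eq_zero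
      intro i hi
      have : SS θ ((cp p)^[j] cκ) (x i) = SS θ (fun _ _ => (0 : k)) (x i) := by
        apply SS_congr
        intro l hl
        by_contra hnz
        obtain ⟨g, hg, hcg⟩ := exists_of_iter hroot cκ j _ _ hnz
        exact hcg (hcon l.prod (mem_biUnion.2 ⟨i, hi, mem_image_of_mem _ hl⟩) g hg _)
      have h0 : SS θ (fun _ _ => (0 : k)) (x i) = 0 := by
        have := SS_hom θ (fun _ _ => (0 : k)) (0 : k →ₗ[k] k) (x i)
        simpa using this
      rw [this, h0, smul_zero]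
    rw [h3] at h2
    exact pow_eq_zero_iff (pow_ne_zero j hp.out.ne_zero) |>.1 h2.symm
  choose P hPS g hgP l hcl using hall
  have hfin : ∃ i j, i < j ∧ P i = P j := by
    have hinf := Finite.exists_ne_map_eq_of_infinite
      (fun j : ℕ => (⟨P j, hPS j⟩ : {a // a ∈ S}))
    obtain ⟨a, b, hab, he⟩ := hinf
    have he' : P a = P b := congrArg Subtype.val he
    rcases lt_or_gt_of_ne hab with h | h
    · exact ⟨a, b, h, he'⟩
    · exact ⟨b, a, h, he'.symm⟩
  obtain ⟨i, j, hij, hP⟩ := hfin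
  have hmk : ∀ a, ConjClasses.mk (g a) = κ := by
    intro a
    by_contra hcon
    apply hcl a
    simp only [hcκ]
    rw [if_neg hcon]
  have hconj : IsConj (g i) (g j) :=
    ConjClasses.mk_eq_mk_iff_isConj.1 ((hmk i).trans (hmk j).symm)
  obtain ⟨y, hy⟩ := isConj_iff.1 hconj
  -- `g j = y * g i * y⁻¹`
  have hpowroot : ∀ (e : ℕ) (a b : G), a ^ p ^ e = b ^ p ^ e → a = b := by
    intro e
    induction e with
    | zero => intro a b h; simpa using h
    | succ e ih =>
      intro a b h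
      rw [pow_succ, pow_mul, pow_mul] at h
      exact ih a b (hroot _ _ h)
  have h4 : g i = g j ^ p ^ (j - i) := by
    apply hpowroot i
    rw [hgP, hP, ← hgP j, ← pow_mul, ← pow_add, Nat.sub_add_cancel hij.le]
  have h5 : y⁻¹ * g j * (y⁻¹)⁻¹ = g j ^ p ^ (j - i) := by
    rw [← h4, ← hy]
    group
  apply hcl j
  simp only [hcκ]
  rw [if_pos (hmk j)]
  exact hvan (g j) y⁻¹ (j - i) (by omega) h5 _

/-- vanishing, for values in any module -/
theorem vanish_module [CharP k p] [IsReduced k] (hroot : ∀ a b : G, a ^ p = b ^ p → a = b)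
    {𝒢 : Type y} [Group 𝒢] (θ : 𝒢 →* Matrix r r (MonoidAlgebra k G))
    (n : ℕ) (hn : 1 ≤ n) (c : G → List G → V) (hc : Fam n c)
    (hvan : ∀ (g x : G) (j : ℕ), 1 ≤ j → x * g * x⁻¹ = g ^ p ^ j → ∀ l, c g l = 0)
    {ι : Type z} (I : Finset ι) (m : ι → ℤ) (x : ι → List 𝒢) (hz : IsCyc k n I m x) :
    ∑ i ∈ I, m i • SS θ c (x i) = 0 := by
  classical
  let _ : Module (ZMod p) V := Module.compHom V (ZMod.castHom (dvd_refl p) k)
  let b := Module.Basis.ofVectorSpace (ZMod p) V
  let B := Module.Basis.ofVectorSpaceIndex (ZMod p) V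
  let φ : ZMod p →+* k := ZMod.castHom (dvd_refl p) k
  -- lift of the values to the free module
  let μ : (B →₀ k) →ₗ[k] V := Finsupp.linearCombination k b
  let ĉ : G → List G → (B →₀ k) := fun g l => (b.repr (c g l)).mapRange φ (map_zero φ)
  have hμ : ∀ g l, μ (ĉ g l) = c g l := by
    intro g l
    have h1 : μ (ĉ g l) = Finsupp.linearCombination (ZMod p) b (b.repr (c g l)) := by
      show Finsupp.linearCombination k b ((b.repr (c g l)).mapRange φ (map_zero φ)) = _
      rw [Finsupp.linearCombination_apply, Finsupp.linearCombination_apply,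
        Finsupp.sum_mapRange_index (by simp)]
      rfl
    rw [h1, Module.Basis.linearCombination_repr]
  have h1 : (fun g l => μ (ĉ g l)) = c := by
    funext g l
    exact hμ g l
  have h2 : ∑ i ∈ I, m i • SS θ c (x i) = μ (∑ i ∈ I, m i • SS θ ĉ (x i)) := by
    rw [map_sum]
    apply sum_congr rfl
    intro i _
    rw [map_zsmul, ← SS_hom θ ĉ μ (x i), h1]
  rw [h2]
  have h3 : ∑ i ∈ I, m i • SS θ ĉ (x i) = 0 := by
    ext β
    have h4 : (∑ i ∈ I, m i • SS θ ĉ (x i)) β =
        ∑ i ∈ I, m i • SS θ (fun g l => Finsupp.lapply (R := k) β (ĉ g l)) (x i) := by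
      rw [Finsupp.finsetSum_apply]
      apply sum_congr rfl
      intro i _
      rw [SS_hom θ ĉ (Finsupp.lapply β) (x i)]
      rfl
    rw [h4]
    have h5 : (fun g l => Finsupp.lapply (R := k) β (ĉ g l)) =
        fun g l => φ.toAddMonoidHom ((b.coord β).toAddMonoidHom (c g l)) := by
      funext g l
      simp [ĉ, φ]
    rw [h5]
    apply vanish_frob hroot θ n hn _ ((hc.hom _).hom _) _ _ I m x hz
    · intro g l
      show φ _ ^ p = φ _
      rw [← map_pow, ZMod.pow_card]
    · intro g x j hj hg l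
      rw [hvan g x j hj hg l, map_zero, map_zero]
  rw [h3, map_zero]

end van

end Pool.Agent.W644.HK
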