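import Pool.Agent.W644.HK.Basic

/-!
# Path measures of lists of matrices over group algebras
-/

set_option autoImplicit false
set_option linter.unusedSectionVars false

namespace Pool.Agent.W644.HK

open Finset

universe u v w x

variable {k : Type u} [CommRing k] {H : Type v} [Group H] {R : Type w} [Fintype R] [DecidableEq R]
  {V : Type x} [AddCommGroup V] [Module k V]

/-- linear extension of a function on the group to the group algebra -/
noncomputable def LL (φ : H → V) : MonoidAlgebra k H →ₗ[k] V :=
  (Finsupp.linearCombination k φ).comp (MonoidAlgebra.coeffLinearEquiv k).toLinearMap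

lemma LL_apply (φ : H → V) (a : MonoidAlgebra k H) :
    LL φ a = a.coeff.sum fun h x => x • φ h := rfl

lemma LL_eq_sum (φ : H → V) (a : MonoidAlgebra k H) :
    LL φ a = ∑ h ∈ a.coeff.support, a.coeff h • φ h := rfl

@[simp] lemma LL_single (φ : H → V) (h : H) (c : k) :
    LL φ (MonoidAlgebra.single h c) = c • φ h := by
  rw [LL_apply, MonoidAlgebra.coeff_single, Finsupp.sum_single_index]
  simp

@[simp] lemma LL_one (φ : H → V) : LL φ (1 : MonoidAlgebra k H) = φ 1 := by
  rw [MonoidAlgebra.one_def, LL_single, one_smul]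

lemma LL_comp {W : Type*} [AddCommGroup W] [Module k W] (f : V →ₗ[k] W) (φ : H → V)
    (a : MonoidAlgebra k H) : f (LL φ a) = LL (fun h => f (φ h)) a := by
  rw [LL_eq_sum, LL_eq_sum, map_sum]
  simp

lemma LL_add_fun (φ ψ : H → V) (a : MonoidAlgebra k H) :
    LL (fun h => φ h + ψ h) a = LL φ a + LL ψ a := by
  simp [LL_eq_sum, sum_add_distrib]

lemma LL_smul_fun (c : k) (φ : H → V) (a : MonoidAlgebra k H) :
    LL (fun h => c • φ h) a = c • LL φ a := by
  simp [LL_eq_sum, smul_sum, smul_comm c]

@[simp] lemma LL_zero_fun (a : MonoidAlgebra k H) : LL (fun _ => (0 : V)) a = 0 := by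
  simp [LL_eq_sum]

lemma LL_sum_fun {ι : Type*} (s : Finset ι) (φ : ι → H → V) (a : MonoidAlgebra k H) :
    LL (fun h => ∑ i ∈ s, φ i h) a = ∑ i ∈ s, LL (φ i) a := by
  simp only [LL_eq_sum, smul_sum]
  rw [sum_comm]

lemma LL_mul (φ : H → V) (a b : MonoidAlgebra k H) :
    LL φ (a * b) = LL (fun h => LL (fun h' => φ (h * h')) b) a := by
  induction a using MonoidAlgebra.induction_linear with
  | zero => simp
  | add a a' ha ha' => rw [add_mul, map_add, map_add, ha, ha']
  | single h c =>
    induction b using MonoidAlgebra.induction_linear with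
    | zero => simp
    | add b b' hb hb' =>
      rw [mul_add, map_add, hb, hb']
      simp [smul_add]
    | single h' c' =>
      rw [MonoidAlgebra.single_mul_single]
      simp [mul_smul]

/-- interchanging two linear extensions -/
lemma LL_comm {H' : Type*} [Group H'] (φ : H → H' → V) (a : MonoidAlgebra k H)
    (b : MonoidAlgebra k H') :
    LL (fun h => LL (fun h' => φ h h') b) a = LL (fun h' => LL (fun h => φ h h') a) b := by
  simp only [LL_eq_sum, smul_sum]
  rw [sum_comm]
  exact sum_congr rfl fun _ _ => sum_congr rfl fun _ _ => smul_comm _ _ _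

/-- the path measure of a list of matrices -/
noncomputable def mu : List (Matrix R R (MonoidAlgebra k H)) → R → R → (List H →₀ k)
  | [], s, t => if s = t then Finsupp.single [] 1 else 0
  | X :: Xs, s, t => ∑ s', LL (fun h => (mu Xs s' t).mapDomain (List.cons h)) (X s s')

/-- the path functional of a list of matrices -/
noncomputable def EE (Xs : List (Matrix R R (MonoidAlgebra k H))) (s t : R)
    (F : List H → V) : V := Finsupp.linearCombination k F (mu Xs s t)

lemma EE_eq_sum (Xs : List (Matrix R R (MonoidAlgebra k H))) (s t : R) (F : List H → V) :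
    EE Xs s t F = ∑ l ∈ (mu Xs s t).support, mu Xs s t l • F l := rfl

lemma EE_nil (s t : R) (F : List H → V) :
    EE (k := k) [] s t F = if s = t then F [] else 0 := by
  rw [EE, mu]
  split_ifs <;> simp

lemma EE_cons (X : Matrix R R (MonoidAlgebra k H)) (Xs : List (Matrix R R (MonoidAlgebra k H)))
    (s t : R) (F : List H → V) :
    EE (X :: Xs) s t F = ∑ s', LL (fun h => EE Xs s' t fun l => F (h :: l)) (X s s') := by
  rw [EE, mu, map_sum]
  apply sum_congr rfl
  intro s' _
  rw [LL_comp]
  refine congrArg (fun φ => LL φ (X s s')) (funext fun h => ?_)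
  rw [Finsupp.linearCombination_mapDomain]
  rfl

lemma mu_cons_nil (X : Matrix R R (MonoidAlgebra k H))
    (Xs : List (Matrix R R (MonoidAlgebra k H))) (s t : R) : mu (X :: Xs) s t [] = 0 := by
  rw [mu, Finsupp.finsetSum_apply]
  apply sum_eq_zero
  intro s' _
  rw [LL_eq_sum, Finsupp.finsetSum_apply]
  apply sum_eq_zero
  intro h _
  rw [Finsupp.smul_apply, Finsupp.mapDomain_of_notMem_range, smul_zero]
  rintro ⟨l, hl⟩
  simp at hl

lemma mu_cons_cons (X : Matrix R R (MonoidAlgebra k H))
    (Xs : List (Matrix R R (MonoidAlgebra k H))) (s t : R) (h : H) (l : List H) :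
    mu (X :: Xs) s t (h :: l) = ∑ s', (X s s').coeff h * mu Xs s' t l := by
  rw [mu, Finsupp.finsetSum_apply]
  apply sum_congr rfl
  intro s' _
  rw [LL_eq_sum, Finsupp.finsetSum_apply]
  by_cases hh : h ∈ (X s s').coeff.support
  · rw [sum_eq_single_of_mem h hh]
    · rw [Finsupp.smul_apply, Finsupp.mapDomain_apply (fun a b hab => by simpa using hab)]
      rfl
    · intro h' _ hne
      rw [Finsupp.smul_apply, Finsupp.mapDomain_of_notMem_range, smul_zero]
      rintro ⟨l', hl'⟩
      simp only [List.cons.injEq] at hl'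
      exact hne hl'.1
  · rw [Finsupp.notMem_support_iff.1 hh, zero_mul]
    apply sum_eq_zero
    intro h' hh'
    rw [Finsupp.smul_apply, Finsupp.mapDomain_of_notMem_range, smul_zero]
    rintro ⟨l', hl'⟩
    simp only [List.cons.injEq] at hl'
    exact hh (hl'.1 ▸ hh')

lemma mu_nil_nil (s t : R) : mu (k := k) (H := H) [] s t [] = if s = t then 1 else 0 := by
  rw [mu]
  split_ifs <;> simp

lemma mu_nil_cons (s t : R) (h : H) (l : List H) : mu (k := k) [] s t (h :: l) = 0 := by
  rw [mu]
  split_ifs
  · rw [Finsupp.single_apply, if_neg (by simp)]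
  · simp

lemma length_of_mem (Xs : List (Matrix R R (MonoidAlgebra k H))) (s t : R) (l : List H)
    (h : mu Xs s t l ≠ 0) : l.length = Xs.length := by
  induction Xs generalizing s l with
  | nil =>
    match l with
    | [] => rfl
    | a :: l => exact absurd (mu_nil_cons _ _ _ _) h
  | cons X Xs ih =>
    match l with
    | [] => exact absurd (mu_cons_nil _ _ _ _) h
    | a :: l =>
      rw [mu_cons_cons] at h
      obtain ⟨s', _, hs'⟩ := exists_ne_zero_of_sum_ne_zero h
      rw [List.length_cons, List.length_cons, ih s' l (right_ne_zero_of_mul hs')]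

lemma EE_congr (Xs : List (Matrix R R (MonoidAlgebra k H))) (s t : R) (F F' : List H → V)
    (h : ∀ l : List H, l.length = Xs.length → F l = F' l) : EE Xs s t F = EE Xs s t F' := by
  rw [EE_eq_sum, EE_eq_sum]
  apply sum_congr rfl
  intro l hl
  rw [h l (length_of_mem Xs s t l (Finsupp.mem_support_iff.1 hl))]

lemma EE_add_fun (Xs : List (Matrix R R (MonoidAlgebra k H))) (s t : R) (F F' : List H → V) :
    EE Xs s t (fun l => F l + F' l) = EE Xs s t F + EE Xs s t F' := by
  simp [EE_eq_sum, sum_add_distrib]

lemma EE_sub_fun (Xs : List (Matrix R R (MonoidAlgebra k H))) (s t : R) (F F' : List H → V) :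
    EE Xs s t (fun l => F l - F' l) = EE Xs s t F - EE Xs s t F' := by
  simp [EE_eq_sum, smul_sub]

lemma EE_zsmul_fun (Xs : List (Matrix R R (MonoidAlgebra k H))) (s t : R) (c : ℤ)
    (F : List H → V) :
    EE Xs s t (fun l => c • F l) = c • EE Xs s t F := by
  simp only [EE_eq_sum, smul_sum]
  apply sum_congr rfl
  intro l _
  rw [smul_comm]

lemma EE_sum_fun {ι : Type*} (I : Finset ι) (Xs : List (Matrix R R (MonoidAlgebra k H)))
    (s t : R) (F : ι → List H → V) :
    EE Xs s t (fun l => ∑ i ∈ I, F i l) = ∑ i ∈ I, EE Xs s t (F i) := by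
  simp only [EE_eq_sum, smul_sum]
  rw [sum_comm]

lemma EE_LL_comm {H' : Type*} [Group H'] (Xs : List (Matrix R R (MonoidAlgebra k H))) (s t : R)
    (F : H' → List H → V) (a : MonoidAlgebra k H') :
    EE Xs s t (fun l => LL (fun h => F h l) a) = LL (fun h => EE Xs s t (F h)) a := by
  simp only [EE_eq_sum, LL_eq_sum, smul_sum]
  rw [sum_comm]
  exact sum_congr rfl fun _ _ => sum_congr rfl fun _ _ => smul_comm _ _ _

/-- merging two neighbouring matrices -/
lemma EE_mg (i : ℕ) (Xs : List (Matrix R R (MonoidAlgebra k H))) (s t : R) (F : List H → V)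
    (h : i + 1 < Xs.length) : EE (mg i Xs) s t F = EE Xs s t fun l => F (mg i l) := by
  induction i generalizing Xs s F with
  | zero =>
    match Xs, h with
    | [], h => simp at h
    | [a], h => simp at h
    | X :: X' :: Xs, h =>
      rw [mg_zero_cons, EE_cons, EE_cons]
      simp only [EE_cons, mg_zero_cons]
      simp_rw [Matrix.mul_apply, map_sum, LL_mul, LL_sum_fun]
      rw [sum_comm]
  | succ i ih =>
    match Xs, h with
    | [], h => simp at h
    | X :: Xs, h =>
      rw [mg_succ_cons, EE_cons, EE_cons]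
      apply sum_congr rfl
      intro s' _
      refine congrArg (fun φ => LL φ (X s s')) (funext fun g => ?_)
      rw [ih Xs s' _ (by simpa using h)]
      simp

/-- the path functional of a list with an extra last matrix -/
lemma EE_snoc (Xs : List (Matrix R R (MonoidAlgebra k H))) (X : Matrix R R (MonoidAlgebra k H))
    (s t : R) (F : List H → V) :
    EE (Xs ++ [X]) s t F =
      ∑ s', EE Xs s s' fun l => LL (fun h => F (l ++ [h])) (X s' t) := by
  induction Xs generalizing s F with
  | nil =>
    rw [List.nil_append, EE_cons]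
    simp only [EE_nil, List.nil_append]
    rw [sum_eq_single t, sum_eq_single s]
    · simp
    · intro b _ hb
      rw [if_neg (fun h => hb h.symm)]
    · simp
    · intro b _ hb
      simp [hb]
    · simp
  | cons Y Ys ih =>
    rw [List.cons_append, EE_cons]
    simp_rw [ih, EE_cons, LL_sum_fun]
    rw [sum_comm]
    simp

/-- the closed path functional, the end point is the start point twisted by `π` -/
noncomputable def TT (π : R ≃ R) (F : List H → V) (Xs : List (Matrix R R (MonoidAlgebra k H))) : V :=
  ∑ s, EE Xs s (π s) F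

lemma TT_mg (π : R ≃ R) (i : ℕ) (Xs : List (Matrix R R (MonoidAlgebra k H))) (F : List H → V)
    (h : i + 1 < Xs.length) : TT π F (mg i Xs) = TT π (fun l => F (mg i l)) Xs := by
  unfold TT
  apply sum_congr rfl
  intro s _
  rw [EE_mg _ _ _ _ _ h]

lemma TT_congr (π : R ≃ R) (Xs : List (Matrix R R (MonoidAlgebra k H))) (F F' : List H → V)
    (h : ∀ l : List H, l.length = Xs.length → F l = F' l) : TT π F Xs = TT π F' Xs := by
  unfold TT
  apply sum_congr rfl
  intro s _
  rw [EE_congr _ _ _ _ _ h]

lemma TT_sub_fun (π : R ≃ R) (F F' : List H → V) (Xs : List (Matrix R R (MonoidAlgebra k H))) :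
    TT π (fun l => F l - F' l) Xs = TT π F Xs - TT π F' Xs := by
  simp [TT, EE_sub_fun]

lemma TT_zsmul_fun (π : R ≃ R) (c : ℤ) (F : List H → V)
    (Xs : List (Matrix R R (MonoidAlgebra k H))) :
    TT π (fun l => c • F l) Xs = c • TT π F Xs := by
  simp [TT, EE_zsmul_fun, smul_sum]

lemma TT_sum_fun {ι : Type*} (I : Finset ι) (π : R ≃ R) (F : ι → List H → V)
    (Xs : List (Matrix R R (MonoidAlgebra k H))) :
    TT π (fun l => ∑ i ∈ I, F i l) Xs = ∑ i ∈ I, TT π (F i) Xs := by
  simp only [TT, EE_sum_fun]
  rw [sum_comm]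

/-- move the first letter to the end, twisting it by `τ` -/
def rotl (τ : H → H) : List H → List H
  | [] => []
  | h :: l => l ++ [τ h]

lemma TT_rotl (π : R ≃ R) (τ : H →* H) (X : Matrix R R (MonoidAlgebra k H))
    (Xs : List (Matrix R R (MonoidAlgebra k H)))
    (hX : ∀ s s', ∀ φ : H → V, LL φ (X (π s) (π s')) = LL (fun h => φ (τ h)) (X s s'))
    (F : List H → V) :
    TT π F (Xs ++ [X]) = TT π (fun l => F (rotl τ l)) (X :: Xs) := by
  unfold TT
  simp_rw [EE_snoc, EE_cons]
  have h1 : ∀ s' : R, (∑ s, EE Xs s' s fun l => LL (fun h => F (l ++ [h])) (X s (π s'))) =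
      ∑ s, EE Xs s' (π s) fun l => LL (fun h => F (l ++ [h])) (X (π s) (π s')) := fun s' =>
    (Equiv.sum_comp π fun s => EE Xs s' s fun l => LL (fun h => F (l ++ [h])) (X s (π s'))).symm
  simp_rw [h1, hX, EE_LL_comm]
  rw [sum_comm]
  rfl

end Pool.Agent.W644.HK
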