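import Pool.Agent.W644.HK.Tens

/-!
# Necklaces: choosing a block in an equivariant way
-/

set_option autoImplicit false
set_option linter.unusedSectionVars false

namespace Pool.Agent.W644.HK

open Finset

universe u v w x y

variable {G : Type v} [Group G] {p : ℕ} [NeZero p]

/-- partial products -/
def qq (Q : ZMod p → G) : ℕ → G
  | 0 => 1
  | j + 1 => qq Q j * Q (j : ZMod p)

@[simp] lemma qq_zero (Q : ZMod p → G) : qq Q 0 = 1 := rfl

lemma qq_succ (Q : ZMod p → G) (j : ℕ) : qq Q (j + 1) = qq Q j * Q (j : ZMod p) := rfl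

lemma qq_add_p (Q : ZMod p → G) (j : ℕ) : qq Q (j + p) = qq Q p * qq Q j := by
  induction j with
  | zero => simp
  | succ j ih =>
    rw [show j + 1 + p = (j + p) + 1 by ring, qq_succ, qq_succ, ih, mul_assoc]
    simp

/-- the position of the point `Y` in block `j` -/
def yy (Q Y : ZMod p → G) (j : ℕ) : G := qq Q j * Y (j : ZMod p)

/-- the vertex word at `Y` -/
def uu (Q Y : ZMod p → G) : ZMod p → G := fun j => (Y j)⁻¹ * Q j * Y (j + 1)

lemma yy_succ (Q Y : ZMod p → G) (j : ℕ) :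
    yy Q Y (j + 1) = yy Q Y j * uu Q Y (j : ZMod p) := by
  simp [yy, uu, qq_succ, mul_assoc]

lemma yy_add_p (Q Y : ZMod p → G) (j : ℕ) : yy Q Y (j + p) = qq Q p * yy Q Y j := by
  simp [yy, qq_add_p, mul_assoc]

lemma yy_add_mul_p (Q Y : ZMod p → G) (j m : ℕ) :
    yy Q Y (j + m * p) = qq Q p ^ m * yy Q Y j := by
  induction m with
  | zero => simp
  | succ m ih =>
    rw [show j + (m + 1) * p = (j + m * p) + p by ring, yy_add_p, ih, ← mul_assoc, ← pow_succ']

/-- shift of a cyclic word -/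
def sh (j : ℕ) (u : ZMod p → G) : ZMod p → G := fun m => u (m + (j : ZMod p))

lemma sh_sh (i j : ℕ) (u : ZMod p → G) : sh i (sh j u) = sh (i + j) u := by
  funext m
  simp only [sh, Nat.cast_add]
  congr 1
  ring

@[simp] lemma sh_zero (u : ZMod p → G) : sh 0 u = u := by
  funext m
  simp [sh]

lemma sh_mul_p (m : ℕ) (u : ZMod p → G) : sh (m * p) u = u := by
  funext i
  simp [sh]

/-- the orbit relation -/
def shSetoid (G : Type v) [Group G] (p : ℕ) [NeZero p] : Setoid (ZMod p → G) where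
  r u v := ∃ j : ℕ, sh j u = v
  iseqv := by
    refine ⟨fun u => ⟨0, sh_zero u⟩, ?_, ?_⟩
    · rintro u v ⟨j, rfl⟩
      refine ⟨j * (p - 1), ?_⟩
      rw [sh_sh]
      have hp : 1 ≤ p := Nat.one_le_iff_ne_zero.2 (NeZero.ne p)
      have : j * (p - 1) + j = j * p := by
        obtain ⟨q, rfl⟩ : ∃ q, p = q + 1 := ⟨p - 1, by omega⟩
        simp
        ring
      rw [this, sh_mul_p]
    · rintro u v w ⟨i, rfl⟩ ⟨j, rfl⟩
      exact ⟨j + i, (sh_sh _ _ _).symm⟩

/-- the representative of the orbit -/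
noncomputable def rep (u : ZMod p → G) : ZMod p → G :=
  (Quotient.mk (shSetoid G p) u).out

lemma exists_sel (u : ZMod p → G) : ∃ j : ℕ, sh j u = rep u := by
  have h := Quotient.mk_out (s := shSetoid G p) u
  exact (shSetoid G p).symm h

lemma rep_sh (j : ℕ) (u : ZMod p → G) : rep (sh j u) = rep u := by
  unfold rep
  congr 1
  exact (Quotient.sound (s := shSetoid G p) (⟨j, rfl⟩ : (shSetoid G p).r u (sh j u))).symm

/-- the chosen shift -/
noncomputable def sel (u : ZMod p → G) : ℕ := (exists_sel u).choose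

lemma sel_spec (u : ZMod p → G) : sh (sel u) u = rep u := (exists_sel u).choose_spec

/-- the vertex map of the equivariant choice -/
noncomputable def ev (h : G) (Q Y : ZMod p → G) : G :=
  (h ^ sel (uu Q Y))⁻¹ * yy Q Y (sel (uu Q Y))

lemma yy_of_sh (Q Y : ZMod p → G) (i j : ℕ) (hij : sh i (uu Q Y) = sh j (uu Q Y)) (m : ℕ) :
    yy Q Y (j + m) = (yy Q Y j * (yy Q Y i)⁻¹) * yy Q Y (i + m) := by
  induction m with
  | zero => simp
  | succ m ih =>
    rw [← add_assoc, ← add_assoc, yy_succ, yy_succ, ih, mul_assoc _ _ (uu Q Y _)]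
    congr 2
    have := congrFun hij (m : ZMod p)
    simp only [sh] at this
    rw [add_comm (m : ZMod p), add_comm (m : ZMod p)] at this
    rw [Nat.cast_add, Nat.cast_add, this]

lemma yy_of_sh' (Q Y : ZMod p → G) (i d : ℕ) (hij : sh i (uu Q Y) = sh (i + d) (uu Q Y)) (m : ℕ) :
    yy Q Y (i + d * m) = (yy Q Y (i + d) * (yy Q Y i)⁻¹) ^ m * yy Q Y i := by
  induction m with
  | zero => simp
  | succ m ih =>
    rw [show i + d * (m + 1) = (i + d) + d * m by ring, yy_of_sh Q Y i (i + d) hij, ih,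
      ← mul_assoc, ← pow_succ']

lemma ev_aux (hroot : ∀ a b : G, a ^ p = b ^ p → a = b) (h : G) (Q Y : ZMod p → G)
    (hQ : h ^ p = qq Q p) (i d : ℕ) (hij : sh i (uu Q Y) = sh (i + d) (uu Q Y)) :
    (h ^ i)⁻¹ * yy Q Y i = (h ^ (i + d))⁻¹ * yy Q Y (i + d) := by
  have h1 := yy_of_sh' Q Y i d hij p
  rw [yy_add_mul_p, ← hQ] at h1
  have h2 : (yy Q Y (i + d) * (yy Q Y i)⁻¹) ^ p = (h ^ d) ^ p := by
    rw [← pow_mul, mul_comm d p, pow_mul]
    exact (mul_right_cancel h1).symm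
  have h3 := hroot _ _ h2
  have h4 : yy Q Y (i + d) = h ^ d * yy Q Y i := by
    rw [← h3]
    group
  rw [h4, pow_add]
  have h5 : h ^ i * h ^ d = h ^ d * h ^ i := by
    rw [← pow_add, ← pow_add, add_comm]
  rw [h5]
  group

lemma ev_eq (hroot : ∀ a b : G, a ^ p = b ^ p → a = b) (h : G) (Q Y : ZMod p → G)
    (hQ : h ^ p = qq Q p) (j : ℕ) (hj : sh j (uu Q Y) = rep (uu Q Y)) :
    ev h Q Y = (h ^ j)⁻¹ * yy Q Y j := by
  have h1 := sel_spec (uu Q Y)
  rw [← hj] at h1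
  unfold ev
  rcases le_total (sel (uu Q Y)) j with hle | hle
  · obtain ⟨d, hd⟩ := Nat.exists_eq_add_of_le hle
    rw [hd] at h1 ⊢
    exact ev_aux hroot h Q Y hQ _ d h1
  · obtain ⟨d, hd⟩ := Nat.exists_eq_add_of_le hle
    rw [hd] at h1 ⊢
    exact (ev_aux hroot h Q Y hQ _ d h1.symm).symm

/-- the shift by one as a homomorphism -/
abbrev tau (G : Type v) [Group G] (p : ℕ) [NeZero p] : (ZMod p → G) →* (ZMod p → G) :=
  tperm (Equiv.addRight (1 : ZMod p))

lemma tau_apply (x : ZMod p → G) (j : ZMod p) : tau G p x j = x (j + 1) := rfl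

lemma tau_eq_sh (x : ZMod p → G) : tau G p x = sh 1 x := by
  funext j
  simp [sh]

lemma qq_conj (x Q : ZMod p → G) (j : ℕ) :
    qq (x * Q * (tau G p x)⁻¹) j = x 0 * qq Q j * (x (j : ZMod p))⁻¹ := by
  induction j with
  | zero => simp
  | succ j ih =>
    rw [qq_succ, qq_succ, ih]
    simp [mul_assoc]

lemma yy_conj (x Q Y : ZMod p → G) (j : ℕ) :
    yy (x * Q * (tau G p x)⁻¹) (x * Y) j = x 0 * yy Q Y j := by
  rw [yy, qq_conj, yy]
  simp [mul_assoc]

lemma uu_conj (x Q Y : ZMod p → G) :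
    uu (x * Q * (tau G p x)⁻¹) (x * Y) = uu Q Y := by
  funext j
  simp [uu, mul_assoc]

lemma ev_conj (h : G) (x Q Y : ZMod p → G) :
    ev (x 0 * h * (x 0)⁻¹) (x * Q * (tau G p x)⁻¹) (x * Y) = x 0 * ev h Q Y := by
  unfold ev
  rw [uu_conj, yy_conj, conj_pow]
  group

lemma qq_tau (Q : ZMod p → G) (j : ℕ) : qq (tau G p Q) j = (Q 0)⁻¹ * qq Q (j + 1) := by
  induction j with
  | zero => simp [qq_succ]
  | succ j ih =>
    rw [qq_succ, ih, qq_succ Q (j + 1)]
    simp [mul_assoc]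

lemma qq_tau_p (Q : ZMod p → G) : qq (tau G p Q) p = (Q 0)⁻¹ * qq Q p * Q 0 := by
  rw [qq_tau, add_comm p 1, qq_add_p, qq_succ]
  simp [mul_assoc]

lemma yy_tau (Q Y : ZMod p → G) (j : ℕ) :
    yy (tau G p Q) (tau G p Y) j = (Q 0)⁻¹ * yy Q Y (j + 1) := by
  rw [yy, qq_tau, yy]
  simp [mul_assoc]

lemma uu_tau (Q Y : ZMod p → G) : uu (tau G p Q) (tau G p Y) = sh 1 (uu Q Y) := by
  funext j
  simp [uu, sh]

lemma ev_tau (hroot : ∀ a b : G, a ^ p = b ^ p → a = b) (h : G) (Q Y : ZMod p → G)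
    (hQ : h ^ p = qq Q p) :
    ev ((Q 0)⁻¹ * h * Q 0) (tau G p Q) (tau G p Y) = (Q 0)⁻¹ * (h * ev h Q Y) := by
  obtain ⟨j, hj⟩ := exists_sel (uu (tau G p Q) (tau G p Y))
  have hconj : ∀ n : ℕ, ((Q 0)⁻¹ * h * Q 0) ^ n = (Q 0)⁻¹ * h ^ n * Q 0 := by
    intro n
    have := conj_pow (a := (Q 0)⁻¹) (b := h) (i := n)
    rwa [inv_inv] at this
  rw [ev_eq hroot _ _ _ (by rw [hconj, hQ, qq_tau_p]) j hj]
  rw [uu_tau, rep_sh, sh_sh] at hj
  rw [ev_eq hroot h Q Y hQ (j + 1) hj, yy_tau, hconj, pow_succ']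
  group

lemma qq_const (g : G) (j : ℕ) : qq (fun _ : ZMod p => g) j = g ^ j := by
  induction j with
  | zero => simp
  | succ j ih => rw [qq_succ, ih, pow_succ]

lemma ev_const (g y : G) : ev g (fun _ : ZMod p => g) (fun _ => y) = y := by
  unfold ev yy
  rw [qq_const]
  group

end Pool.Agent.W644.HK
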