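import Pool.Agent.W644.HK.Faces

/-!
# Tensor powers of matrices over group algebras
-/

set_option autoImplicit false
set_option linter.unusedSectionVars false

namespace Pool.Agent.W644.HK

open Finset

universe u v w x y

variable {k : Type u} [CommRing k] {J : Type y} [Fintype J] [DecidableEq J]

/-- product of finitely supported functions -/
noncomputable def tens {A : Type*} (ν : J → (A →₀ k)) : (J → A) →₀ k :=
  Finsupp.onFinset (Fintype.piFinset fun j => (ν j).support) (fun a => ∏ j, ν j (a j)) (by
    intro a ha
    rw [Fintype.mem_piFinset]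
    intro j
    rw [Finsupp.mem_support_iff]
    exact fun h => ha (prod_eq_zero (mem_univ j) h))

@[simp] lemma tens_apply {A : Type*} (ν : J → (A →₀ k)) (a : J → A) :
    tens ν a = ∏ j, ν j (a j) := rfl

lemma support_tens {A : Type*} (ν : J → (A →₀ k)) :
    (tens ν).support ⊆ Fintype.piFinset fun j => (ν j).support := by
  intro a ha
  rw [Fintype.mem_piFinset]
  intro j
  rw [Finsupp.mem_support_iff] at ha ⊢
  exact fun h => ha (prod_eq_zero (mem_univ j) h)

variable {G : Type v} [Group G] {r : Type w} [Fintype r] [DecidableEq r]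

lemma tens_mul (a b : J → MonoidAlgebra k G) :
    MonoidAlgebra.ofCoeff (tens fun j => (a j).coeff) *
        MonoidAlgebra.ofCoeff (tens fun j => (b j).coeff) =
      MonoidAlgebra.ofCoeff (tens fun j => (a j * b j).coeff) := by
  ext g
  rw [MonoidAlgebra.coeff_mul_apply_left]
  simp only [MonoidAlgebra.coeff_ofCoeff]
  rw [Finsupp.sum_of_support_subset _ (support_tens _) _ (by simp)]
  simp only [tens_apply, MonoidAlgebra.coeff_mul_apply_left]
  simp only [Finsupp.sum]
  rw [Finset.prod_univ_sum]
  apply sum_congr rfl
  intro h _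
  rw [prod_mul_distrib]
  rfl

/-- the tensor power of a matrix over a group algebra -/
noncomputable def om (X : Matrix r r (MonoidAlgebra k G)) :
    Matrix (J → r) (J → r) (MonoidAlgebra k (J → G)) :=
  fun s t => MonoidAlgebra.ofCoeff (tens fun j => (X (s j) (t j)).coeff)

lemma om_coeff (X : Matrix r r (MonoidAlgebra k G)) (s t : J → r) (g : J → G) :
    (om X s t).coeff g = ∏ j, (X (s j) (t j)).coeff (g j) := rfl

lemma om_mul (X Y : Matrix r r (MonoidAlgebra k G)) : om (J := J) (X * Y) = om X * om Y := by
  ext s t g
  rw [om_coeff, Matrix.mul_apply]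
  simp only [om, tens_mul]
  rw [MonoidAlgebra.coeff_sum, Finsupp.finsetSum_apply]
  simp only [MonoidAlgebra.coeff_ofCoeff, tens_apply, Matrix.mul_apply, MonoidAlgebra.coeff_sum,
    Finsupp.finsetSum_apply]
  rw [Finset.prod_univ_sum, Fintype.piFinset_univ]

lemma om_one : om (J := J) (1 : Matrix r r (MonoidAlgebra k G)) = 1 := by
  ext s t g
  rw [om_coeff]
  by_cases h : s = t
  · subst h
    rw [Matrix.one_apply_eq]
    by_cases hg : g = 1
    · subst hg
      rw [MonoidAlgebra.one_def, MonoidAlgebra.coeff_single, Finsupp.single_eq_same]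
      apply prod_eq_one
      intro j _
      rw [Matrix.one_apply_eq, MonoidAlgebra.one_def, MonoidAlgebra.coeff_single]
      simp
    · rw [MonoidAlgebra.one_def, MonoidAlgebra.coeff_single,
        Finsupp.single_eq_of_ne (by simpa using hg)]
      obtain ⟨j, hj⟩ := Function.ne_iff.1 hg
      apply prod_eq_zero (mem_univ j)
      rw [Matrix.one_apply_eq, MonoidAlgebra.one_def, MonoidAlgebra.coeff_single,
        Finsupp.single_eq_of_ne (by simpa using hj)]
  · rw [Matrix.one_apply_ne h]
    obtain ⟨j, hj⟩ := Function.ne_iff.1 h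
    apply prod_eq_zero (mem_univ j)
    rw [Matrix.one_apply_ne hj]
    rfl

/-- the tensor power as a homomorphism of monoids -/
noncomputable def omHom : Matrix r r (MonoidAlgebra k G) →*
    Matrix (J → r) (J → r) (MonoidAlgebra k (J → G)) where
  toFun := om
  map_one' := om_one
  map_mul' := om_mul

/-- permutation of the coordinates, on indices -/
def pperm {A : Type*} (σ : Equiv.Perm J) : (J → A) ≃ (J → A) := Equiv.arrowCongr σ.symm (Equiv.refl A)

@[simp] lemma pperm_apply {A : Type*} (σ : Equiv.Perm J) (s : J → A) (j : J) :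
    pperm σ s j = s (σ j) := rfl

lemma pperm_symm_apply {A : Type*} (σ : Equiv.Perm J) (s : J → A) (j : J) :
    (pperm σ).symm s j = s (σ.symm j) := rfl

/-- permutation of the coordinates, on group elements -/
def tperm (σ : Equiv.Perm J) : (J → G) →* (J → G) where
  toFun x := fun j => x (σ j)
  map_one' := rfl
  map_mul' _ _ := rfl

@[simp] lemma tperm_apply (σ : Equiv.Perm J) (s : J → G) (j : J) :
    tperm σ s j = s (σ j) := rfl

lemma LL_om_perm {V : Type x} [AddCommGroup V] [Module k V] (σ : Equiv.Perm J)
    (X : Matrix r r (MonoidAlgebra k G)) (s t : J → r) (φ : (J → G) → V) :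
    LL φ (om X (pperm σ s) (pperm σ t)) = LL (fun h => φ (tperm σ h)) (om X s t) := by
  have h1 : (om X (pperm σ s) (pperm σ t)).coeff =
      (om X s t).coeff.mapDomain (pperm σ : (J → G) ≃ (J → G)) := by
    ext g
    rw [Finsupp.mapDomain_equiv_apply, om_coeff, om_coeff]
    simp only [pperm_apply, pperm_symm_apply]
    exact Fintype.prod_equiv σ _ _ (fun j => by simp)
  rw [LL, LinearMap.comp_apply]
  show Finsupp.linearCombination k φ (om X (pperm σ s) (pperm σ t)).coeff = _
  rw [h1, Finsupp.linearCombination_mapDomain]
  rfl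

/-- the path measure of the tensor powers is the product of the path measures -/
lemma mu_om [Nonempty J] (Xs : List (Matrix r r (MonoidAlgebra k G))) (s t : J → r)
    (l : List (J → G)) :
    mu (Xs.map om) s t l = ∏ j, mu Xs (s j) (t j) (l.map fun g => g j) := by
  induction Xs generalizing s l with
  | nil =>
    match l with
    | [] =>
      rw [List.map_nil, mu_nil_nil]
      simp only [List.map_nil, mu_nil_nil]
      by_cases h : s = t
      · subst h
        simp
      · rw [if_neg h]
        obtain ⟨j, hj⟩ := Function.ne_iff.1 h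
        exact (prod_eq_zero (mem_univ j) (if_neg hj)).symm
    | a :: l =>
      rw [List.map_nil, mu_nil_cons]
      simp only [List.map_cons, mu_nil_cons]
      simp
  | cons X Xs ih =>
    match l with
    | [] =>
      rw [List.map_cons, mu_cons_nil]
      simp only [List.map_nil, mu_cons_nil]
      simp
    | a :: l =>
      rw [List.map_cons, mu_cons_cons]
      simp only [List.map_cons, mu_cons_cons, ih, om_coeff]
      rw [Finset.prod_univ_sum, Fintype.piFinset_univ]
      simp only [prod_mul_distrib]

end Pool.Agent.W644.HK
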