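import Pool.Agent.W644.HK.Eval

/-!
# Evaluation of the closed path functional on tensor powers
-/

set_option autoImplicit false
set_option linter.unusedSectionVars false

namespace Pool.Agent.W644.HK

open Finset

universe u v w x y

section unt

variable {J : Type y} [Fintype J] [DecidableEq J] [Nonempty J] {A : Type v}

/-- from a list of tuples to a tuple of lists -/
def unt (l : List (J → A)) : J → List A := fun j => l.map fun g => g j

omit [Fintype J] [DecidableEq J] in
lemma unt_injective : Function.Injective (unt : List (J → A) → J → List A) := by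
  intro l l' h
  induction l generalizing l' with
  | nil =>
    match l' with
    | [] => rfl
    | a :: l' =>
      have := congrFun h (Classical.arbitrary J)
      simp [unt] at this
  | cons a l ih =>
    match l' with
    | [] =>
      have := congrFun h (Classical.arbitrary J)
      simp [unt] at this
    | a' :: l' =>
      have h1 : a = a' := by
        funext j
        have := congrFun h j
        simp only [unt, List.map_cons, List.cons.injEq] at this
        exact this.1
      have h2 : l = l' := by
        apply ih
        funext j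
        have := congrFun h j
        simp only [unt, List.map_cons, List.cons.injEq] at this
        exact this.2
      rw [h1, h2]

omit [Fintype J] [DecidableEq J] [Nonempty J] in
lemma exists_unt (n : ℕ) (f : J → List A) (hf : ∀ j, (f j).length = n) :
    ∃ l : List (J → A), unt l = f := by
  induction n generalizing f with
  | zero =>
    refine ⟨[], ?_⟩
    funext j
    exact (List.eq_nil_of_length_eq_zero (hf j)).symm
  | succ n ih =>
    have h1 : ∀ j, ∃ a l, f j = a :: l := fun j => List.exists_cons_of_length_eq_add_one (hf j)
    choose a l hal using h1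
    obtain ⟨L, hL⟩ := ih l (fun j => by
      have := hf j
      rw [hal] at this
      simpa using this)
    refine ⟨a :: L, ?_⟩
    funext j
    rw [hal, ← hL]
    rfl

end unt

variable {k : Type u} [CommRing k] {G : Type v} [Group G] {r : Type w} [Fintype r] [DecidableEq r]
  {V : Type x} [AddCommGroup V] [Module k V]

lemma EE_unt {J : Type y} [Fintype J] [DecidableEq J] [Nonempty J]
    (Xs : List (Matrix r r (MonoidAlgebra k G))) (s t : J → r) (Φ : (J → List G) → V) :
    EE (Xs.map om) s t (fun l => Φ (unt l)) =
      Finsupp.linearCombination k Φ (tens fun j => mu Xs (s j) (t j)) := by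
  have h1 : (mu (Xs.map om) s t).mapDomain unt = tens fun j => mu Xs (s j) (t j) := by
    ext f
    by_cases hf : f ∈ Set.range (unt : List (J → G) → J → List G)
    · obtain ⟨l, rfl⟩ := hf
      rw [Finsupp.mapDomain_apply unt_injective, mu_om, tens_apply]
      rfl
    · rw [Finsupp.mapDomain_of_notMem_range _ _ hf]
      by_contra hne
      apply hf
      refine exists_unt Xs.length f fun j => ?_
      apply length_of_mem Xs (s j) (t j)
      intro hz
      exact hne ((prod_eq_zero (mem_univ j) hz).symm)
  rw [← h1, Finsupp.linearCombination_mapDomain]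
  rfl

lemma mapDomain_apply_eq {A B : Type*} [DecidableEq B] (f : A → B) (ν : A →₀ k) (S : Finset A)
    (hS : ν.support ⊆ S) (b : B) :
    ν.mapDomain f b = ∑ a ∈ S, if f a = b then ν a else 0 := by
  rw [Finsupp.mapDomain, Finsupp.sum_of_support_subset _ hS _ (by simp), Finsupp.finsetSum_apply]
  apply sum_congr rfl
  intro a _
  rw [Finsupp.single_apply]

lemma tens_mapDomain {J : Type y} [Fintype J] [DecidableEq J] {A B : Type*}
    (f : J → A → B) (ν : J → (A →₀ k)) :
    (tens ν).mapDomain (fun a j => f j (a j)) = tens fun j => (ν j).mapDomain (f j) := by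
  classical
  ext b
  rw [mapDomain_apply_eq _ _ _ (support_tens ν), tens_apply]
  simp only [fun j => mapDomain_apply_eq (f j) (ν j) _ (Finset.Subset.refl _) (b j)]
  rw [Finset.prod_univ_sum]
  apply sum_congr rfl
  intro a _
  split_ifs with h
  · rw [tens_apply]
    apply prod_congr rfl
    intro j _
    rw [if_pos (congrFun h j)]
  · obtain ⟨j, hj⟩ := Function.ne_iff.1 h
    exact (prod_eq_zero (mem_univ j) (if_neg hj)).symm

lemma EE_prod (Xs : List (Matrix r r (MonoidAlgebra k G))) (s t : r) (φ : G → V) :
    EE Xs s t (fun l => φ l.prod) = LL φ (Xs.prod s t) := by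
  induction Xs generalizing s φ with
  | nil =>
    rw [EE_nil, List.prod_nil, List.prod_nil]
    split_ifs with h
    · rw [h, Matrix.one_apply_eq, LL_one]
    · rw [Matrix.one_apply_ne h, map_zero]
  | cons X Xs ih =>
    rw [EE_cons, List.prod_cons, Matrix.mul_apply, map_sum]
    apply sum_congr rfl
    intro s' _
    rw [LL_mul]
    refine congrArg (fun φ => LL φ (X s s')) (funext fun h => ?_)
    rw [← ih]
    simp

lemma mapDomain_prod (Xs : List (Matrix r r (MonoidAlgebra k G))) (hXs : Xs.prod = 1) (s t : r) :
    (mu Xs s t).mapDomain (fun l => [l.prod]) =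
      if s = t then Finsupp.single [1] 1 else 0 := by
  have h1 := EE_prod (V := List G →₀ k) Xs s t (fun g => Finsupp.single [g] 1)
  rw [hXs] at h1
  have h2 : EE Xs s t (fun l => (Finsupp.single [l.prod] 1 : List G →₀ k)) =
      (mu Xs s t).mapDomain (fun l => [l.prod]) := by
    rw [EE_eq_sum, Finsupp.mapDomain]
    simp [Finsupp.sum]
  rw [← h2, h1]
  split_ifs with h
  · rw [h, Matrix.one_apply_eq, LL_one]
  · rw [Matrix.one_apply_ne h, map_zero]

variable {p : ℕ} [NeZero p]

lemma qq_single (Q : ZMod p → G) (hQ : ∀ j, j ≠ 0 → Q j = 1) : qq Q p = Q 0 := by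
  have h1 : ∀ j : ℕ, j + 1 ≤ p → qq Q (j + 1) = Q 0 := by
    intro j
    induction j with
    | zero => intro _; simp [qq_succ]
    | succ j ih =>
      intro hj
      have h2 : Q ((j + 1 : ℕ) : ZMod p) = 1 := by
        apply hQ
        intro hz
        rw [ZMod.natCast_eq_zero_iff] at hz
        exact absurd (Nat.le_of_dvd (by omega) hz) (by omega)
      rw [qq_succ, ih (by omega), h2, mul_one]
  have hp : p ≠ 0 := NeZero.ne p
  obtain ⟨q, hq⟩ := Nat.exists_eq_succ_of_ne_zero hp
  have := h1 q (by omega)
  rwa [show q + 1 = p from hq.symm] at this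

lemma const_of_succ (s : ZMod p → r) (hs : ∀ j : ZMod p, j ≠ 0 → s j = s (j + 1)) (j : ZMod p) :
    s j = s 0 := by
  -- going up from `j` to `p = 0`
  have h1 : ∀ m : ℕ, m < p → s ((p - m : ℕ) : ZMod p) = s 0 := by
    intro m
    induction m with
    | zero => intro _; simp
    | succ m ih =>
      intro hm
      rw [hs, ← ih (by omega)]
      · congr 1
        have h2 : p - m = p - (m + 1) + 1 := by omega
        rw [h2, Nat.cast_add, Nat.cast_one]
      · intro hz
        rw [ZMod.natCast_eq_zero_iff] at hz
        exact absurd (Nat.le_of_dvd (by omega) hz) (by omega)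
  by_cases hj : j = 0
  · rw [hj]
  · have h2 := h1 (p - j.val) (by
      have h3 : j.val ≠ 0 := by
        intro hz
        apply hj
        exact (ZMod.val_eq_zero j).1 hz
      have := ZMod.val_lt j
      omega)
    have h4 : p - (p - j.val) = j.val := by
      have := ZMod.val_lt j
      omega
    rw [h4, ZMod.natCast_val, ZMod.cast_id] at h2
    exact h2

/-- evaluation of the cochain of block `0` -/
lemma TT_e0 (c : G → List G → V) (Xs : List (Matrix r r (MonoidAlgebra k G)))
    (hXs : Xs.prod = 1) :
    TT (pperm (Equiv.addRight (1 : ZMod p))) (CF (CE (p := p) c e0)) (Xs.map om) =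
      TT (Equiv.refl r) (CF (cp p c)) Xs := by
  classical
  -- the cochain on tuples of lists
  let Φ : (ZMod p → List G) → V := fun f =>
    cp p c (qq (fun j => (f j).prod) p) (pts 1 (f 0))
  have hΦ : ∀ l : List (ZMod p → G), CF (CE (p := p) c e0) l = Φ (unt l) := by
    intro l
    rw [CF, CE_e0]
    have h1 : l.prod = fun j => (unt l j).prod := by
      funext j
      exact map_list_prod (Pi.evalMonoidHom (fun _ : ZMod p => G) j) l
    have h2 : ((pts 1 l).map fun Y => Y 0) = pts 1 (unt l 0) :=
      map_pts (fun Y : ZMod p → G => Y 0) (fun _ _ => rfl) 1 l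
    rw [h2]
    show cp p c (qq l.prod p) _ = cp p c (qq (fun j => (unt l j).prod) p) _
    rw [← h1]
  let nrm : ZMod p → List G → List G := fun j l => if j = 0 then l else [l.prod]
  have hnrm : ∀ f, Φ (fun j => nrm j (f j)) = Φ f := by
    intro f
    show cp p c (qq (fun j => (nrm j (f j)).prod) p) (pts 1 (nrm 0 (f 0))) =
      cp p c (qq (fun j => (f j).prod) p) (pts 1 (f 0))
    have h1 : (fun j => (nrm j (f j)).prod) = fun j => (f j).prod := by
      funext j
      simp only [nrm]
      split_ifs <;> simp
    rw [h1]
    simp [nrm]
  have hstep : ∀ s : ZMod p → r,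
      EE (Xs.map om) s (pperm (Equiv.addRight (1 : ZMod p)) s) (CF (CE (p := p) c e0)) =
      Finsupp.linearCombination k Φ
        (tens fun j => if j = 0 then mu Xs (s 0) (s 1) else
          if s j = s (j + 1) then Finsupp.single [1] 1 else 0) := by
    intro s
    have h1 : CF (CE (p := p) c e0) = fun l => Φ (unt l) := funext hΦ
    rw [h1, EE_unt]
    have h2 : Finsupp.linearCombination k Φ (tens fun j => mu Xs (s j)
        (pperm (Equiv.addRight (1 : ZMod p)) s j)) =
        Finsupp.linearCombination k Φ ((tens fun j => mu Xs (s j)
        (pperm (Equiv.addRight (1 : ZMod p)) s j)).mapDomain fun f j => nrm j (f j)) := by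
      rw [Finsupp.linearCombination_mapDomain]
      congr 2
      funext f
      exact (hnrm f).symm
    rw [h2, tens_mapDomain]
    congr 2
    funext j
    by_cases hj : j = 0
    · subst hj
      simp [nrm]
      exact Finsupp.mapDomain_id
    · rw [if_neg hj]
      have h3 : nrm j = fun l => [l.prod] := by
        funext l
        simp [nrm, hj]
      rw [h3, mapDomain_prod Xs hXs]
      rfl
  unfold TT
  simp_rw [hstep]
  rw [← sum_subset (subset_univ (univ.image fun s : r => fun _ : ZMod p => s))]
  · rw [sum_image (fun a _ b _ hab => congrFun hab 0)]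
    apply sum_congr rfl
    intro s _
    have h1 : (tens fun j : ZMod p => if j = 0 then mu Xs s s else
          if s = s then (Finsupp.single [1] 1 : List G →₀ k) else 0) =
        (mu Xs s s).mapDomain fun l => fun j : ZMod p => if j = 0 then l else [1] := by
      ext f
      rw [tens_apply, ← mul_prod_erase univ _ (mem_univ (0 : ZMod p)), if_pos rfl]
      have hinj : Function.Injective
          (fun (l : List G) => fun j : ZMod p => if j = 0 then l else ([1] : List G)) := by
        intro l l' h
        simpa using congrFun h 0
      by_cases hf : ∀ j, j ≠ 0 → f j = [1]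
      · have h2 : f = fun j => if j = 0 then f 0 else [1] := by
          funext j
          split_ifs with h
          · rw [h]
          · exact hf j h
        rw [h2, Finsupp.mapDomain_apply hinj, prod_eq_one, mul_one]
        · simp
        · intro j hj
          rw [if_neg (ne_of_mem_erase hj), if_pos rfl]
          simp [ne_of_mem_erase hj]
      · push Not at hf
        obtain ⟨j, hj, hfj⟩ := hf
        rw [Finsupp.mapDomain_of_notMem_range]
        · rw [prod_eq_zero (mem_erase.2 ⟨hj, mem_univ j⟩), mul_zero]
          rw [if_neg hj, if_pos rfl, Finsupp.single_apply, if_neg (fun h => hfj h.symm)]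
        · rintro ⟨l, rfl⟩
          simp [hj] at hfj
    rw [h1, Finsupp.linearCombination_mapDomain]
    show _ = EE Xs s s _
    rw [EE]
    congr 2
    funext l
    show cp p c (qq (fun j : ZMod p => (if j = 0 then l else [1]).prod) p)
      (pts 1 (if (0 : ZMod p) = 0 then l else [1])) = cp p c l.prod (pts 1 l)
    rw [qq_single]
    · simp
    · intro j hj
      simp [hj]
  · intro s _ hs
    have h1 : ∃ j : ZMod p, j ≠ 0 ∧ s j ≠ s (j + 1) := by
      by_contra hcon
      push Not at hcon
      apply hs
      rw [mem_image]
      refine ⟨s 0, mem_univ _, ?_⟩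
      funext j
      exact (const_of_succ s hcon j).symm
    obtain ⟨j, hj, hsj⟩ := h1
    have h2 : (tens fun j => if j = 0 then mu Xs (s 0) (s 1) else
          if s j = s (j + 1) then Finsupp.single [1] 1 else 0) = 0 := by
      ext f
      rw [tens_apply]
      apply prod_eq_zero (mem_univ j)
      rw [if_neg hj, if_neg hsj]
      rfl
    rw [h2, map_zero]

end Pool.Agent.W644.HK
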