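import Pool.Agent.W644.HK.Total

/-!
# Evaluation of the rotation invariant cochain in characteristic `p`
-/

set_option autoImplicit false
set_option linter.unusedSectionVars false

namespace Pool.Agent.W644.HK

open Finset

universe u v w x y

variable {k : Type u} [CommRing k] {G : Type v} [Group G] {r : Type w} [Fintype r] [DecidableEq r]

open Classical in
/-- the words occurring in the path measures -/
noncomputable def Lset (Xs : List (Matrix r r (MonoidAlgebra k G))) : Finset (List G) :=
  univ.biUnion fun s => univ.biUnion fun t => (mu Xs s t).support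

lemma mem_Lset (Xs : List (Matrix r r (MonoidAlgebra k G))) (s t : r) (l : List G)
    (h : mu Xs s t l ≠ 0) : l ∈ Lset Xs := by
  classical
  rw [Lset, mem_biUnion]
  exact ⟨s, mem_univ _, mem_biUnion.2 ⟨t, mem_univ _, Finsupp.mem_support_iff.2 h⟩⟩

variable {p : ℕ} [hp : Fact p.Prime]

/-- the necklace words occurring in the path measures of tensor powers -/
noncomputable def Aset (p : ℕ) [Fact p.Prime] (Xs : List (Matrix r r (MonoidAlgebra k G))) :
    Finset (List (ZMod p → G)) :=
  (Fintype.piFinset fun _ : ZMod p => Lset Xs).preimage unt unt_injective.injOn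

lemma mem_Aset (Xs : List (Matrix r r (MonoidAlgebra k G))) (l : List (ZMod p → G)) :
    l ∈ Aset p Xs ↔ ∀ j, unt l j ∈ Lset Xs := by
  rw [Aset, mem_preimage, Fintype.mem_piFinset]

lemma EE_Aset (Xs : List (Matrix r r (MonoidAlgebra k G))) (s t : ZMod p → r)
    (F : List (ZMod p → G) → k) :
    EE (Xs.map om) s t F = ∑ l ∈ Aset p Xs, mu (Xs.map om) s t l * F l := by
  rw [EE_eq_sum]
  apply sum_subset
  · intro l hl
    rw [Finsupp.mem_support_iff, mu_om] at hl
    rw [mem_Aset]
    intro j
    exact mem_Lset Xs _ _ _ (fun h => hl (prod_eq_zero (mem_univ j) h))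
  · intro l _ hl
    rw [Finsupp.notMem_support_iff.1 hl, zero_smul]

/-- rotation of a state and a word -/
def rr (x : (ZMod p → r) × List (ZMod p → G)) : (ZMod p → r) × List (ZMod p → G) :=
  (pperm (Equiv.addRight (1 : ZMod p)) x.1, x.2.map (tau G p))

lemma rr_iterate (i : ℕ) (x : (ZMod p → r) × List (ZMod p → G)) :
    rr^[i] x = (fun j => x.1 (j + (i : ZMod p)), x.2.map (sh i)) := by
  induction i with
  | zero =>
    rw [Function.iterate_zero_apply]
    refine Prod.ext ?_ ?_
    · simp
    · have : (sh 0 : (ZMod p → G) → (ZMod p → G)) = id := funext fun u => sh_zero u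
      rw [this, List.map_id]
  | succ i ih =>
    rw [Function.iterate_succ_apply', ih, rr]
    refine Prod.ext ?_ ?_
    · funext j
      show x.1 (j + 1 + (i : ZMod p)) = x.1 (j + ((i + 1 : ℕ) : ZMod p))
      rw [show j + 1 + (i : ZMod p) = j + ((i + 1 : ℕ) : ZMod p) by push_cast; ring]
    · simp only [List.map_map]
      congr 1
      funext u
      rw [Function.comp_apply, tau_eq_sh, sh_sh, add_comm]

lemma rr_iterate_p (x : (ZMod p → r) × List (ZMod p → G)) : rr^[p] x = x := by
  rw [rr_iterate]
  refine Prod.ext ?_ ?_
  · simp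
  · have : (sh p : (ZMod p → G) → (ZMod p → G)) = id := by
      funext u
      have := sh_mul_p 1 u
      rwa [one_mul] at this
    rw [this, List.map_id]

lemma unt_map_tau (l : List (ZMod p → G)) (j : ZMod p) :
    unt (l.map (tau G p)) j = unt l (j + 1) := by
  simp only [unt, List.map_map]
  rfl

lemma const_of_fixed {A : Type*} (g : ZMod p → A) (hg : ∀ j, g (j + 1) = g j) (j : ZMod p) :
    g j = g 0 := by
  have h1 : ∀ m : ℕ, g (m : ZMod p) = g 0 := by
    intro m
    induction m with
    | zero => simp
    | succ m ih => rw [Nat.cast_add, Nat.cast_one, hg, ih]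
  have h2 := h1 j.val
  rwa [ZMod.natCast_val, ZMod.cast_id] at h2

lemma TT_ev [CharP k p] (hroot : ∀ a b : G, a ^ p = b ^ p → a = b) (c : G → List G → k)
    (hc : ∀ x g l, c (x * g * x⁻¹) (l.map (x * ·)) = c g l)
    (Xs : List (Matrix r r (MonoidAlgebra k G))) :
    TT (pperm (Equiv.addRight (1 : ZMod p))) (CF (CE (p := p) c ev)) (Xs.map om) =
      ∑ s, ∑ l ∈ Lset Xs, mu Xs s s l ^ p * c l.prod (pts 1 l) := by
  classical
  set π : (ZMod p → r) ≃ (ZMod p → r) := pperm (Equiv.addRight (1 : ZMod p)) with hπ
  set N : (ZMod p → r) × List (ZMod p → G) → k := fun x =>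
    mu (Xs.map om) x.1 (π x.1) x.2 * CF (CE (p := p) c ev) x.2 with hN
  have h1 : TT π (CF (CE (p := p) c ev)) (Xs.map om) =
      ∑ x ∈ univ ×ˢ Aset p Xs, N x := by
    rw [sum_product]
    unfold TT
    apply sum_congr rfl
    intro s _
    rw [EE_Aset]
  rw [h1, frob_sum p rr N _ (univ ×ˢ Aset p Xs) rfl]
  · rw [← sum_product']
    symm
    apply sum_nbij' (fun y : r × List G => ((fun _ : ZMod p => y.1), y.2.map fun g => fun _ => g))
      (fun x => (x.1 0, unt x.2 0))
    · rintro ⟨s, l⟩ h
      rw [mem_product] at h
      rw [mem_filter, mem_product]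
      refine ⟨⟨mem_univ _, ?_⟩, ?_⟩
      · rw [mem_Aset]
        intro j
        have : unt (l.map fun g => fun _ : ZMod p => g) j = l := by
          simp [unt, Function.comp_def]
        simpa only [this] using h.2
      · refine Prod.ext ?_ ?_
        · rfl
        · simp only [rr, List.map_map]
          rfl
    · rintro ⟨s, l⟩ h
      rw [mem_filter, mem_product] at h
      rw [mem_product]
      exact ⟨mem_univ _, (mem_Aset _ _).1 h.1.2 0⟩
    · rintro ⟨s, l⟩ _
      refine Prod.ext rfl ?_
      simp [unt, Function.comp_def]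
    · rintro ⟨s, l⟩ h
      rw [mem_filter] at h
      have h2 := h.2
      simp only [rr, Prod.mk.injEq] at h2
      refine Prod.ext ?_ ?_
      · funext j
        exact (const_of_fixed s (fun j => congrFun h2.1 j) j).symm
      · simp only [unt, List.map_map]
        conv_rhs => rw [← List.map_id l]
        apply List.map_congr_left
        intro g hg
        have h3 : tau G p g = g := by
          have h4 : l.map (tau G p) = l.map id := by rw [h2.2, List.map_id]
          exact (List.map_inj_left.1 h4) g hg
        funext j
        exact (const_of_fixed g (fun j => congrFun h3 j) j).symm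
    · rintro ⟨s, l⟩ _
      simp only [hN]
      congr 1
      · rw [mu_om]
        have : ∀ j : ZMod p, (l.map fun g => fun _ : ZMod p => g).map (fun g => g j) = l := by
          intro j
          simp [Function.comp_def]
        simp only [this]
        simp [hπ, ZMod.card]
      · rw [CF]
        have h5 : (l.map fun g => fun _ : ZMod p => g).prod = fun _ => l.prod := by
          funext j
          have := map_list_prod (Pi.evalMonoidHom (fun _ : ZMod p => G) j)
            (l.map fun g => fun _ : ZMod p => g)
          rw [Pi.evalMonoidHom_apply] at this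
          rw [this]
          simp [Function.comp_def]
        have h6 : pts 1 (l.map fun g => fun _ : ZMod p => g) =
            (pts 1 l).map fun g => fun _ : ZMod p => g := by
          rw [map_pts (fun g => fun _ : ZMod p => g) (fun _ _ => rfl)]
          rfl
        rw [h5, h6, CE_ev_const hroot]
  · rintro ⟨s, l⟩ h
    rw [mem_product] at h ⊢
    refine ⟨mem_univ _, ?_⟩
    rw [mem_Aset] at h ⊢
    intro j
    simp only [rr]
    rw [unt_map_tau]
    exact h.2 (j + 1)
  · intro x _
    exact rr_iterate_p x
  · rintro ⟨s, l⟩ _
    simp only [hN, rr]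
    congr 1
    · rw [mu_om, mu_om]
      refine Fintype.prod_equiv (Equiv.addRight (1 : ZMod p)) _ _ fun j => ?_
      have := unt_map_tau l j
      simp only [unt] at this
      rw [this]
      rfl
    · rw [CF, CF]
      have h5 : (l.map (tau G p)).prod = tau G p l.prod := (map_list_prod (tau G p) l).symm
      have h6 : pts 1 (l.map (tau G p)) = (pts 1 l).map (tau G p) := by
        rw [map_pts (tau G p) (fun a b => (tau G p).map_mul a b), map_one]
      rw [h5, h6, CE_ev_tau hroot c hc]

end Pool.Agent.W644.HK
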